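import Pool.Agent.R410.BS.Core2

/-!
# Exponentials of Dirichlet series over the prime powers: the order at the edge
-/

set_option autoImplicit false
set_option linter.all false

namespace Pool.Agent.R410.EP

open Filter Topology NumberField
open Pool.Agent.H126R3 (Qc Qc_pos Qc_rpow summable_Q)
open Pool.Agent.W385.CP (CB diffA sumA sumA' Qc_zero term_norm)
open Pool.Agent.Y707.RX (SD cmb near_one summable_bdd)
open Pool.Agent.R410.BS (A2 dd A2_diff dd_bound split)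

/-- **The order at the edge.** -/
theorem core3 {A : Nat.Primes × ℕ → ℂ} {e : ℕ} {C : ℝ} (hCB : CB A e C) {κ : Type} [Fintype κ]
    (L : κ → Type) [∀ j, Field (L j)] [∀ j, NumberField (L j)]
    (a : κ → ℝ) {r : ℤ} (hr : ∑ j, a j = r) {K : ℝ}
    (b : ∀ᶠ p : Nat.Primes in cofinite,
      ‖A (p, 0) / (((p : ℕ) : ℂ) ^ e) + cmb L a p‖ ≤ K * ((p : ℕ) : ℝ) ^ (-(1 / 2) : ℝ)) :
    ∃ Φ : ℂ → ℂ,
      (∀ s : ℂ, (e : ℝ) + 1 < s.re →
        Φ s = Complex.exp (∑' c : Nat.Primes × ℕ, A c * ((Qc c : ℕ) : ℂ) ^ (-s))) ∧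
      DifferentiableOn ℂ Φ {s : ℂ | (e : ℝ) + 1 < s.re} ∧
      MeromorphicAt Φ ((e : ℂ) + 1) ∧ meromorphicOrderAt Φ ((e : ℂ) + 1) = r := by
  classical
  obtain ⟨G, hG, hGe⟩ := near_one (L := L) (a := a) (d := dd A e) (dd_bound hCB) (D := K) (r := r) (by
    filter_upwards [b] with p hp
    have h1 : dd A e (p, 0) = A (p, 0) / (((p : ℕ) : ℂ) ^ e) := by
      unfold dd
      rw [if_pos (Nat.zero_le _), Qc_zero]
    rw [h1]
    exact hp) hr
  have hopen1 : IsOpen {s : ℂ | (e : ℝ) + 1 < s.re} := isOpen_lt continuous_const Complex.continuous_re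
  have hopen2 : IsOpen {s : ℂ | (e : ℝ) + 5 / 6 < s.re} :=
    isOpen_lt continuous_const Complex.continuous_re
  have hmem : ((e : ℂ) + 1) ∈ {s : ℂ | (e : ℝ) + 5 / 6 < s.re} := by
    rw [Set.mem_ofPred_eq, Complex.add_re, Complex.natCast_re, Complex.one_re]
    linarith
  set Φ₀ : ℂ → ℂ := fun s => Complex.exp (∑' c : Nat.Primes × ℕ, A c * ((Qc c : ℕ) : ℂ) ^ (-s)) with hΦ₀
  set P : ℂ → ℂ := fun s => ∑' c : Nat.Primes × ℕ, A2 A c * ((Qc c : ℕ) : ℂ) ^ (-s) with hP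
  set H : ℂ → ℂ := fun s => Complex.exp (P s + G (s - e)) with hH
  set Λ : ℂ → ℂ := fun s => (s - ((e : ℂ) + 1)) ^ r * H s with hΛ
  have hPan : AnalyticAt ℂ P ((e : ℂ) + 1) := (A2_diff hCB).analyticAt (hopen2.mem_nhds hmem)
  have hGan : AnalyticAt ℂ (fun s : ℂ => G (s - e)) ((e : ℂ) + 1) := by
    have h1 : AnalyticAt ℂ (fun s : ℂ => s - (e : ℂ)) ((e : ℂ) + 1) := by fun_prop
    have h2 : AnalyticAt ℂ G ((fun s : ℂ => s - (e : ℂ)) ((e : ℂ) + 1)) := by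
      have : (fun s : ℂ => s - (e : ℂ)) ((e : ℂ) + 1) = 1 := by simp
      rw [this]
      exact hG
    exact AnalyticAt.comp (g := G) (f := fun s : ℂ => s - (e : ℂ)) h2 h1
  have hHan : AnalyticAt ℂ H ((e : ℂ) + 1) := (hPan.add hGan).cexp
  have hΛm : MeromorphicAt Λ ((e : ℂ) + 1) := by
    refine MeromorphicAt.mul ?_ hHan.meromorphicAt
    exact (MeromorphicAt.sub (MeromorphicAt.id _) (MeromorphicAt.const _ _)).zpow r
  have hΛo : meromorphicOrderAt Λ ((e : ℂ) + 1) = r := by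
    rw [meromorphicOrderAt_eq_int_iff hΛm]
    exact ⟨H, hHan, Complex.exp_ne_zero _, Filter.Eventually.of_forall fun z => rfl⟩
  -- the two expressions
  have heq : ∀ᶠ s in 𝓝 ((e : ℂ) + 1), (e : ℝ) + 1 < s.re → Φ₀ s = Λ s := by
    have h1 : Tendsto (fun s : ℂ => s - (e : ℂ)) (𝓝 ((e : ℂ) + 1)) (𝓝 1) := by
      have h2 : Continuous fun s : ℂ => s - (e : ℂ) := by fun_prop
      have h3 := h2.tendsto ((e : ℂ) + 1)
      rwa [add_sub_cancel_left] at h3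
    filter_upwards [h1.eventually hGe] with s hs hre
    have h2 : 1 < (s - (e : ℂ)).re := by
      rw [Complex.sub_re, Complex.natCast_re]
      linarith
    rw [hΦ₀, hΛ, hH, hP]
    simp only
    rw [split hCB hre, Complex.exp_add, hs h2]
    have h4 : s - (e : ℂ) - 1 = s - ((e : ℂ) + 1) := by ring
    rw [h4, Complex.exp_add _ (G (s - e))]
    ring
  set Φ : ℂ → ℂ := fun s => if (e : ℝ) + 1 < s.re then Φ₀ s else Λ s with hΦ
  have hΦΛ : ∀ᶠ s in 𝓝 ((e : ℂ) + 1), Φ s = Λ s := by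
    filter_upwards [heq] with s hs
    rw [hΦ]
    simp only
    split_ifs with h
    · exact hs h
    · rfl
  have hΦΛ' : Φ =ᶠ[𝓝[≠] ((e : ℂ) + 1)] Λ := Filter.EventuallyEq.filter_mono hΦΛ nhdsWithin_le_nhds
  refine ⟨Φ, fun s hs => if_pos hs, ?_, hΛm.congr hΦΛ'.symm, by rw [meromorphicOrderAt_congr hΦΛ', hΛo]⟩
  have h1 : DifferentiableOn ℂ Φ₀ {s : ℂ | (e : ℝ) + 1 < s.re} := (diffA hCB).cexp
  exact h1.congr fun s hs => if_pos hs

end Pool.Agent.R410.EP
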