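import Pool.Agent.R410.EP.Ord
import Pool.Agent.R410.NG.Asy

/-!
# The order of the Euler product with bounded local terms
-/

set_option autoImplicit false
set_option linter.all false
set_option maxHeartbeats 1000000

open Polynomial NumberField Filter

namespace Pool.Agent.R410.EP

open Pool.Agent.R410.NG (Asy Ff)
open Pool.Agent.H126R3 (pair_unique Qc Qc_pos Qc_rpow summable_Q exists_F le_of_cast_zero)
open Pool.Agent.TH958.An
open Pool.Agent.Y707.RX (cmb)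
open Pool.Agent.W385.CP (CB Qc_zero)
open Pool.Agent.R410.BS (cF cF_le cB cB_nonneg cmb_eq)

section
variable {R : Type} [CommRing R] [hR : Algebra.FiniteType ℤ R] (τ : Pt R → ℕ → ℝ) (N : R)

/-- the terms -/
noncomputable def tmG (s : ℂ) (x : {y : Pt R // N ∉ y.asIdeal} × ℕ) : ℂ :=
  ((τ x.1.1 (qy x.1.1 ^ (x.2 + 1)) / ((x.2 + 1 : ℕ) : ℝ) : ℝ) : ℂ) *
    ((qy x.1.1 ^ (x.2 + 1) : ℕ) : ℂ) ^ (-s)

variable {N} {c : Nat.Primes × ℕ}

theorem tmG_fib (s : ℂ) (x : {x : {y : Pt R // N ∉ y.asIdeal} × ℕ // pi N x = c}) :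
    tmG τ N s x.1 = (((((pk (fibEq N c x).1).2 + 1 : ℕ) : ℝ) * τ (fibEq N c x).1 (Qc c) : ℝ) : ℂ) *
      ((((c.2 + 1 : ℕ) : ℝ)⁻¹ : ℝ) * ((Qc c : ℕ) : ℂ) ^ (-s)) := by
  unfold tmG
  rw [pi_qy x.1 x.2]
  have h1 : fibEq N c x = ⟨x.1.1.1, x.1.1.2, ((pi_eq x.1).1 x.2).1, Dvd.intro _ ((pi_eq x.1).1 x.2).2⟩ :=
    rfl
  rw [h1, ← mul_assoc, ← Complex.ofReal_mul]
  congr 2
  have h2 := ((pi_eq x.1).1 x.2).2
  have h3 : (((pk x.1.1.1).2 + 1 : ℕ) : ℝ) * ((x.1.2 + 1 : ℕ) : ℝ) = ((c.2 + 1 : ℕ) : ℝ) := by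
    rw [← h2]
    push_cast
    ring
  rw [← h3]
  have h4 : (((pk x.1.1.1).2 + 1 : ℕ) : ℝ) ≠ 0 := by positivity
  have h5 : ((x.1.2 + 1 : ℕ) : ℝ) ≠ 0 := by positivity
  field_simp

/-- the sum over all points with values in the field with `Qc c` elements -/
noncomputable def TG (N : R) (c : Nat.Primes × ℕ) : ℝ :=
  letI : Field (exists_F c).choose := (exists_F c).choose_spec.choose
  letI : Fintype (exists_F c).choose := (exists_F c).choose_spec.choose_spec.choose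
  ∑ᶠ φ : {φ : R →+* (exists_F c).choose // φ N ≠ 0}, τ (ptOf φ.1) (Qc c)

theorem tg_eq [Fintype (Yc N c)] : TG τ N c =
    ∑ y : Yc N c, (((pk y.1).2 + 1 : ℕ) : ℝ) * τ y.1 (Qc c) := by
  letI : Field (exists_F c).choose := (exists_F c).choose_spec.choose
  letI : Fintype (exists_F c).choose := (exists_F c).choose_spec.choose_spec.choose
  have hF : Nat.card (exists_F c).choose = Qc c := by
    rw [Nat.card_eq_fintype_card]
    exact (exists_F c).choose_spec.choose_spec.choose_spec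
  rw [← sum_Yc hF (fun y => τ y (Qc c))]
  rfl

variable {τ} {D : ℝ}

/-- the bound for the sums -/
theorem fib_normG (hD : 0 ≤ D) (hτ : ∀ (F : Type) [Field F] [Finite F] (φ : R →+* F),
      |τ (ptOf φ) (Nat.card F)| ≤ D) {e : ℕ} {C : ℝ} (hC0 : 0 ≤ C)
    (hC : ∀ (F : Type) [Field F] [Finite F], (Nat.card (R →+* F) : ℝ) ≤ C * (Nat.card F : ℝ) ^ e)
    [Fintype (Yc N c)] :
    ∑ y : Yc N c, (((pk y.1).2 + 1 : ℕ) : ℝ) * |τ y.1 (Qc c)| ≤ C * D * (Qc c : ℝ) ^ e := by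
  obtain ⟨F, _, _, hF⟩ := exists_F c
  have hF' : Nat.card F = Qc c := by rw [Nat.card_eq_fintype_card]; exact hF
  have hQ : (0 : ℝ) < (Qc c : ℝ) := by exact_mod_cast Qc_pos c
  have hb : ∀ y : Yc N c, |τ y.1 (Qc c)| ≤ D := by
    intro y
    have h1 : 0 < Nat.card {φ : R →+* F // ptOf φ = y.1} := by
      rw [card_fib hF' y]
      omega
    obtain ⟨φ⟩ := (Nat.card_pos_iff.1 h1).1
    rw [← hF', ← φ.2]
    exact hτ F φ.1
  have h1 : ∑ y : Yc N c, (((pk y.1).2 + 1 : ℕ) : ℝ) * |τ y.1 (Qc c)| ≤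
      ∑ y : Yc N c, (((pk y.1).2 + 1 : ℕ) : ℝ) * D :=
    Finset.sum_le_sum fun y _ => mul_le_mul_of_nonneg_left (hb y) (Nat.cast_nonneg _)
  refine h1.trans ?_
  rw [← sum_Yc hF' (fun _ => D)]
  let _ : Fintype {φ : R →+* F // φ N ≠ 0} := Fintype.ofFinite _
  rw [finsum_eq_sum_of_fintype, Finset.sum_const, nsmul_eq_mul, Finset.card_univ,
    ← Nat.card_eq_fintype_card]
  have h2 : (Nat.card {φ : R →+* F // φ N ≠ 0} : ℝ) ≤ C * (Qc c : ℝ) ^ e := by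
    refine le_trans ?_ ((hC F).trans (le_of_eq (by rw [hF'])))
    exact_mod_cast Nat.card_le_card_of_injective _ Subtype.val_injective
  calc _ ≤ C * (Qc c : ℝ) ^ e * D := mul_le_mul_of_nonneg_right h2 hD
    _ = C * D * (Qc c : ℝ) ^ e := by ring

theorem tg_bound (hD : 0 ≤ D) (hτ : ∀ (F : Type) [Field F] [Finite F] (φ : R →+* F),
      |τ (ptOf φ) (Nat.card F)| ≤ D) {e : ℕ} {C : ℝ} (hC0 : 0 ≤ C)
    (hC : ∀ (F : Type) [Field F] [Finite F], (Nat.card (R →+* F) : ℝ) ≤ C * (Nat.card F : ℝ) ^ e) :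
    |TG τ N c| ≤ C * D * (Qc c : ℝ) ^ e := by
  have := finite_Yc (N := N) (c := c)
  let _ := Fintype.ofFinite (Yc N c)
  rw [tg_eq]
  refine (Finset.abs_sum_le_sum_abs _ _).trans (le_trans (le_of_eq ?_)
    (fib_normG (N := N) (c := c) hD hτ hC0 hC))
  refine Finset.sum_congr rfl fun y _ => ?_
  rw [abs_mul, Nat.abs_cast]

/-- **The sum over the closed points.** -/
theorem hasSum_ptsG (hD : 0 ≤ D) (hτ : ∀ (F : Type) [Field F] [Finite F] (φ : R →+* F),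
      |τ (ptOf φ) (Nat.card F)| ≤ D) {e : ℕ} {C : ℝ} (hC0 : 0 ≤ C)
    (hC : ∀ (F : Type) [Field F] [Finite F], (Nat.card (R →+* F) : ℝ) ≤ C * (Nat.card F : ℝ) ^ e)
    {s : ℂ} (hs : (e : ℝ) + 1 < s.re) :
    HasSum (fun y : {y : Pt R // N ∉ y.asIdeal} => ∑' j : ℕ, tmG τ N s (y, j))
      (∑' c : Nat.Primes × ℕ, ((TG τ N c * ((c.2 + 1 : ℕ) : ℝ)⁻¹ : ℝ) : ℂ) * ((Qc c : ℕ) : ℂ) ^ (-s)) := by
  classical
  have hfin : ∀ c : Nat.Primes × ℕ, Finite (Yc N c) := fun c => finite_Yc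
  let _ : ∀ c : Nat.Primes × ℕ, Fintype (Yc N c) := fun c => Fintype.ofFinite _
  let _ : ∀ c : Nat.Primes × ℕ, Fintype {x : {y : Pt R // N ∉ y.asIdeal} × ℕ // pi N x = c} :=
    fun c => Fintype.ofEquiv _ (fibEq N c).symm
  -- summability
  have hn : ∀ (c : Nat.Primes × ℕ) (x : {x : {y : Pt R // N ∉ y.asIdeal} × ℕ // pi N x = c}),
      ‖tmG τ N s x.1‖ = ((((pk (fibEq N c x).1).2 + 1 : ℕ) : ℝ) * |τ (fibEq N c x).1 (Qc c)|) *
        (((c.2 + 1 : ℕ) : ℝ)⁻¹ * (Qc c : ℝ) ^ (-s.re)) := by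
    intro c x
    rw [tmG_fib, norm_mul, norm_mul, Complex.norm_real, Complex.norm_real,
      Complex.norm_natCast_cpow_of_pos (Qc_pos c), Complex.neg_re, Real.norm_eq_abs, Real.norm_eq_abs,
      abs_mul, Nat.abs_cast, abs_of_nonneg (a := ((c.2 + 1 : ℕ) : ℝ)⁻¹) (by positivity)]
  have hsum : Summable (fun x => ‖tmG τ N s x‖) := by
    rw [← (Equiv.sigmaFiberEquiv (pi N)).summable_iff]
    refine (summable_sigma_of_nonneg (f := (fun x => ‖tmG τ N s x‖) ∘ (Equiv.sigmaFiberEquiv (pi N)))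
      (fun x => norm_nonneg _)).2 ⟨fun c => ?_, ?_⟩
    · exact (hasSum_fintype _).summable
    · have h1 := (summable_Q (s.re - e) (by linarith) 0 (by push_cast; linarith)).mul_left (C * D)
      refine Summable.of_nonneg_of_le (fun c => tsum_nonneg fun x => norm_nonneg _) (fun c => ?_) h1
      rw [tsum_fintype]
      have h2 : ∀ x : {x : {y : Pt R // N ∉ y.asIdeal} × ℕ // pi N x = c},
          ((fun x => ‖tmG τ N s x‖) ∘ (Equiv.sigmaFiberEquiv (pi N))) ⟨c, x⟩ =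
          ((((pk (fibEq N c x).1).2 + 1 : ℕ) : ℝ) * |τ (fibEq N c x).1 (Qc c)|) *
            (((c.2 + 1 : ℕ) : ℝ)⁻¹ * (Qc c : ℝ) ^ (-s.re)) := fun x => hn c x
      rw [Finset.sum_congr rfl fun x _ => h2 x, ← Finset.sum_mul]
      rw [(fibEq N c).sum_comp (fun y => (((pk y.1).2 + 1 : ℕ) : ℝ) * |τ y.1 (Qc c)|)]
      have h3 := fib_normG (N := N) (c := c) hD hτ hC0 hC
      have hQ : (0 : ℝ) < (Qc c : ℝ) := by exact_mod_cast Qc_pos c
      have h4 : ((c.2 + 1 : ℕ) : ℝ)⁻¹ ≤ 1 := inv_le_one_of_one_le₀ (by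
        push_cast
        have : (0 : ℝ) ≤ c.2 := Nat.cast_nonneg _
        linarith)
      have hnn : 0 ≤ ∑ y : Yc N c, (((pk y.1).2 + 1 : ℕ) : ℝ) * |τ y.1 (Qc c)| :=
        Finset.sum_nonneg fun y _ => mul_nonneg (Nat.cast_nonneg _) (abs_nonneg _)
      rw [if_pos (Nat.zero_le _)]
      calc _ ≤ (C * D * (Qc c : ℝ) ^ e) * (1 * (Qc c : ℝ) ^ (-s.re)) := by
            refine mul_le_mul h3 (mul_le_mul_of_nonneg_right h4 (by positivity)) (by positivity)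
              (by positivity)
        _ = C * D * (Qc c : ℝ) ^ (-(s.re - e)) := by
            rw [one_mul, mul_assoc, ← Real.rpow_natCast, ← Real.rpow_add hQ]
            congr 2
            ring
  have hS : Summable (tmG τ N s) := hsum.of_norm
  obtain ⟨S, hS⟩ := hS
  -- the fibres
  have h1 : HasSum ((tmG τ N s) ∘ (Equiv.sigmaFiberEquiv (pi N))) S :=
    (Equiv.sigmaFiberEquiv (pi N)).hasSum_iff.2 hS
  have h2 : HasSum (fun c : Nat.Primes × ℕ => ((TG τ N c * ((c.2 + 1 : ℕ) : ℝ)⁻¹ : ℝ) : ℂ) *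
      ((Qc c : ℕ) : ℂ) ^ (-s)) S := by
    refine h1.sigma fun c => ?_
    have h3 := hasSum_fintype (fun x : {x : {y : Pt R // N ∉ y.asIdeal} × ℕ // pi N x = c} =>
      ((tmG τ N s) ∘ (Equiv.sigmaFiberEquiv (pi N))) ⟨c, x⟩)
    have h4 : ∀ x : {x : {y : Pt R // N ∉ y.asIdeal} × ℕ // pi N x = c},
        ((tmG τ N s) ∘ (Equiv.sigmaFiberEquiv (pi N))) ⟨c, x⟩ =
        (((((pk (fibEq N c x).1).2 + 1 : ℕ) : ℝ) * τ (fibEq N c x).1 (Qc c) : ℝ) : ℂ) *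
      ((((c.2 + 1 : ℕ) : ℝ)⁻¹ : ℝ) * ((Qc c : ℕ) : ℂ) ^ (-s)) := fun x => tmG_fib τ s x
    rw [Finset.sum_congr rfl fun x _ => h4 x, ← Finset.sum_mul, ← Complex.ofReal_sum,
      (fibEq N c).sum_comp (fun y => (((pk y.1).2 + 1 : ℕ) : ℝ) * τ y.1 (Qc c)), ← tg_eq,
      ← mul_assoc, ← Complex.ofReal_mul] at h3
    exact h3
  rw [h2.tsum_eq]
  refine hS.prod_fiberwise fun y => ?_
  exact (hS.summable.prod_factor y).hasSum

/-- the factor of the Euler product -/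
noncomputable def ZG (τ : Pt R → ℕ → ℝ) (y : Pt R) (T : ℂ) : ℂ :=
  Complex.exp (∑' j : ℕ, ((τ y (qy y ^ (j + 1)) : ℝ) : ℂ) / ((j + 1 : ℕ) : ℂ) * T ^ (j + 1))

/-- **The Euler product.** -/
theorem hasProd_ptsG (hD : 0 ≤ D) (hτ : ∀ (F : Type) [Field F] [Finite F] (φ : R →+* F),
      |τ (ptOf φ) (Nat.card F)| ≤ D) {e : ℕ} {C : ℝ} (hC0 : 0 ≤ C)
    (hC : ∀ (F : Type) [Field F] [Finite F], (Nat.card (R →+* F) : ℝ) ≤ C * (Nat.card F : ℝ) ^ e)
    {s : ℂ} (hs : (e : ℝ) + 1 < s.re) :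
    HasProd (fun y : {y : Pt R // N ∉ y.asIdeal} => ZG τ y.1 ((qy y.1 : ℂ) ^ (-s)))
      (Complex.exp (∑' c : Nat.Primes × ℕ, ((TG τ N c * ((c.2 + 1 : ℕ) : ℝ)⁻¹ : ℝ) : ℂ) *
        ((Qc c : ℕ) : ℂ) ^ (-s))) := by
  have h1 := (hasSum_ptsG (N := N) hD hτ hC0 hC hs).cexp
  have h2 : (fun y : {y : Pt R // N ∉ y.asIdeal} => ZG τ y.1 ((qy y.1 : ℂ) ^ (-s))) =
      Complex.exp ∘ fun y : {y : Pt R // N ∉ y.asIdeal} => ∑' j : ℕ, tmG τ N s (y, j) := by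
    funext y
    unfold ZG
    show _ = Complex.exp (∑' j : ℕ, tmG τ N s (y, j))
    congr 1
    refine tsum_congr fun j => ?_
    unfold tmG
    show _ = ((τ y.1 (qy y.1 ^ (j + 1)) / ((j + 1 : ℕ) : ℝ) : ℝ) : ℂ) *
      ((qy y.1 ^ (j + 1) : ℕ) : ℂ) ^ (-s)
    rw [Nat.cast_pow, Complex.ofReal_div, Complex.ofReal_natCast]
    congr 1
    rw [← Complex.natCast_cpow_natCast_mul, mul_comm, Complex.cpow_mul_nat]
  rw [h2]
  exact h1

/-- **The order of the Euler product.** -/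
theorem euler_gen (hD : 0 ≤ D) (hτ : ∀ (F : Type) [Field F] [Finite F] (φ : R →+* F),
      |τ (ptOf φ) (Nat.card F)| ≤ D) {e : ℕ} {C : ℝ} (hC0 : 0 ≤ C)
    (hC : ∀ (F : Type) [Field F] [Finite F], (Nat.card (R →+* F) : ℝ) ≤ C * (Nat.card F : ℝ) ^ e)
    {r : ℤ} (hT : Asy (fun F _ _ => ∑ᶠ φ : {φ : R →+* F // φ N ≠ 0}, τ (ptOf φ.1) (Nat.card F)) e r) :
    ∃ Φ : ℂ → ℂ,
      (∀ s : ℂ, (e : ℝ) + 1 < s.re → HasProd (fun y : {y : Pt R // N ∉ y.asIdeal} =>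
        ZG τ y.1 ((qy y.1 : ℂ) ^ (-s))) (Φ s)) ∧
      DifferentiableOn ℂ Φ {s : ℂ | (e : ℝ) + 1 < s.re} ∧
      MeromorphicAt Φ ((e : ℂ) + 1) ∧ meromorphicOrderAt Φ ((e : ℂ) + 1) = ((-r : ℤ) : WithTop ℤ) := by
  classical
  obtain ⟨κ, iκ, L, iL, nL, a, hr, K, M, hK, hM, hT⟩ := hT
  have hCD : 0 ≤ C * D := mul_nonneg hC0 hD
  set K' : ℝ := C * D + K with hK'
  have hK'0 : 0 ≤ K' := by positivity
  have hspec : ∀ c : Nat.Primes × ℕ, ∃ (F : Type) (_ : Field F) (_ : Fintype F),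
      Fintype.card F = Qc c ∧ TG τ N c = ∑ᶠ φ : {φ : R →+* F // φ N ≠ 0}, τ (ptOf φ.1) (Nat.card F) := by
    intro c
    letI : Field (exists_F c).choose := (exists_F c).choose_spec.choose
    letI : Fintype (exists_F c).choose := (exists_F c).choose_spec.choose_spec.choose
    have hF : Fintype.card (exists_F c).choose = Qc c :=
      (exists_F c).choose_spec.choose_spec.choose_spec
    refine ⟨(exists_F c).choose, inferInstance, inferInstance, hF, ?_⟩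
    rw [Nat.card_eq_fintype_card, hF]
    rfl
  let A : Nat.Primes × ℕ → ℂ := fun c => ((TG τ N c * ((c.2 + 1 : ℕ) : ℝ)⁻¹ : ℝ) : ℂ)
  have hA : ∀ c, ‖A c‖ ≤ K' * (Qc c : ℝ) ^ e := by
    intro c
    show ‖((TG τ N c * ((c.2 + 1 : ℕ) : ℝ)⁻¹ : ℝ) : ℂ)‖ ≤ _
    rw [Complex.norm_real, Real.norm_eq_abs, abs_mul,
      abs_of_nonneg (a := ((c.2 + 1 : ℕ) : ℝ)⁻¹) (by positivity)]
    refine (mul_le_of_le_one_right (abs_nonneg _) (inv_le_one_of_one_le₀ ?_)).trans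
      ((tg_bound (N := N) (c := c) hD hτ hC0 hC).trans ?_)
    · push_cast
      have : (0 : ℝ) ≤ c.2 := Nat.cast_nonneg _
      linarith
    · exact mul_le_mul_of_nonneg_right (by rw [hK']; linarith) (by positivity)
  have hCB : CB A e K' := by
    refine ⟨hK'0, ?_, ?_, ?_⟩
    · intro p
      refine (hA _).trans (le_of_eq ?_)
      rw [Qc_zero]
    · intro p
      refine (hA _).trans (le_of_eq ?_)
      rw [Qc, Nat.cast_pow, ← pow_mul]
    · intro c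
      refine (hA _).trans (mul_le_mul_of_nonneg_left ?_ hK'0)
      have hQ : (1 : ℝ) ≤ (Qc c : ℝ) := by exact_mod_cast Qc_pos c
      rw [← Real.rpow_natCast]
      exact Real.rpow_le_rpow_of_exponent_le hQ (by linarith)
  have hcof : ∀ᶠ p : Nat.Primes in Filter.cofinite, ((M : ℕ) : ZMod (p : ℕ)) ≠ 0 := by
    have hfin : {p : Nat.Primes | ((M : ℕ) : ZMod (p : ℕ)) = 0}.Finite := by
      refine Set.Finite.of_injOn (f := fun p : Nat.Primes => (p : ℕ)) (t := (M.primeFactors : Set ℕ)) ?_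
        ?_ (Finset.finite_toSet _)
      · intro p hp
        rw [Set.mem_ofPred_eq, ZMod.natCast_eq_zero_iff] at hp
        exact Nat.mem_primeFactors.2 ⟨p.2, hp, hM⟩
      · intro p _ q _ h
        exact Subtype.ext h
    rw [Filter.eventually_cofinite]
    simpa only [ne_eq, not_not] using hfin
  have b : ∀ᶠ p : Nat.Primes in Filter.cofinite,
      ‖A (p, 0) / (((p : ℕ) : ℂ) ^ e) + cmb L (fun j => -a j) p‖ ≤
        K' * ((p : ℕ) : ℝ) ^ (-(1 / 2) : ℝ) := by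
    filter_upwards [hcof] with p hp
    have : Fact (p : ℕ).Prime := ⟨p.2⟩
    have hp0 : (0 : ℝ) < ((p : ℕ) : ℝ) := by exact_mod_cast p.2.pos
    obtain ⟨F, _, _, hF, hTc⟩ := hspec (p, 0)
    have hF' : Fintype.card F = (p : ℕ) := by rw [hF, Qc_zero]
    have hcard : (Nat.card F : ℝ) = ((p : ℕ) : ℝ) := by rw [Nat.card_eq_fintype_card, hF']
    let ε : F ≃+* ZMod (p : ℕ) := FiniteField.ringEquivOfCardEq (by rw [hF', ZMod.card])
    have hMF : ((M : ℕ) : F) ≠ 0 := by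
      intro h0
      apply hp
      have := congrArg ε h0
      rwa [map_natCast, map_zero] at this
    have h1 : |(∑ᶠ φ : {φ : R →+* F // φ N ≠ 0}, τ (ptOf φ.1) (Nat.card F)) -
        cF L a F * (Nat.card F : ℝ) ^ e| * √(Nat.card F : ℝ) ≤ K * (Nat.card F : ℝ) ^ e := hT F hMF
    rw [← hTc, hcard] at h1
    have hA0 : A (p, 0) = ((TG τ N (p, 0) : ℝ) : ℂ) := by
      show ((TG τ N (p, 0) * ((0 + 1 : ℕ) : ℝ)⁻¹ : ℝ) : ℂ) = _
      norm_num
    have hneg : cF L (fun j => -a j) F = -cF L a F := by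
      unfold cF
      rw [← Finset.sum_neg_distrib]
      exact Finset.sum_congr rfl fun j _ => by ring
    rw [hA0, cmb_eq, ← cF_iso L (fun j => -a j) ε, hneg, ← Complex.ofReal_natCast, ← Complex.ofReal_pow,
      ← Complex.ofReal_div, ← Complex.ofReal_add, Complex.norm_real, Real.norm_eq_abs]
    have hpe : (0 : ℝ) < ((p : ℕ) : ℝ) ^ e := by positivity
    have hs : 0 < √((p : ℕ) : ℝ) := Real.sqrt_pos.2 hp0
    have h3 : TG τ N (p, 0) / ((p : ℕ) : ℝ) ^ e + -cF L a F =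
        (TG τ N (p, 0) - cF L a F * ((p : ℕ) : ℝ) ^ e) / ((p : ℕ) : ℝ) ^ e := by
      field_simp
      ring
    have h4 : ((p : ℕ) : ℝ) ^ (-(1 / 2) : ℝ) = (√((p : ℕ) : ℝ))⁻¹ := by
      rw [Real.sqrt_eq_rpow, ← Real.rpow_neg hp0.le]
    rw [h3, h4, abs_div, abs_of_pos hpe, div_le_iff₀ hpe, ← div_eq_mul_inv]
    rw [div_mul_eq_mul_div, le_div_iff₀ hs]
    refine h1.trans (mul_le_mul_of_nonneg_right ?_ hpe.le)
    rw [hK']
    linarith
  obtain ⟨Φ, g1, g2, g3, g4⟩ := core3 hCB L (fun j => -a j) (r := -r)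
    (by rw [Finset.sum_neg_distrib, hr]; push_cast; rfl) b
  refine ⟨Φ, ?_, g2, g3, g4⟩
  intro s hs
  rw [g1 s hs]
  exact hasProd_ptsG (N := N) hD hτ hC0 hC hs

end

end Pool.Agent.R410.EP
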