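import Pool.Agent.R410.EP.Gen

/-!
# The order of the Euler product with local terms of the order of the square root of the norm
-/

set_option autoImplicit false
set_option linter.all false
set_option maxHeartbeats 1000000

open Polynomial NumberField Filter

namespace Pool.Agent.R410.EP

open Pool.Agent.R410.NG (Asy Ff)
open Pool.Agent.H126R3 (pair_unique Qc Qc_pos Qc_rpow summable_Q exists_F le_of_cast_zero)
open Pool.Agent.TH958.An
open Pool.Agent.Y707.RX (cmb)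
open Pool.Agent.W385.CP (CB Qc_zero)
open Pool.Agent.R410.BS (cF cF_le cB cB_nonneg cmb_eq)

section
variable {R : Type} [CommRing R] [hR : Algebra.FiniteType ℤ R] {τ : Pt R → ℕ → ℝ} {N : R}
  {c : Nat.Primes × ℕ} {D : ℝ}

/-- the bound for the sums -/
theorem fib_normH (hD : 0 ≤ D) (hτ : ∀ (F : Type) [Field F] [Finite F] (φ : R →+* F),
      |τ (ptOf φ) (Nat.card F)| ≤ D * √(Nat.card F : ℝ)) {e : ℕ} {C : ℝ} (hC0 : 0 ≤ C)
    (hC : ∀ (F : Type) [Field F] [Finite F], (Nat.card (R →+* F) : ℝ) ≤ C * (Nat.card F : ℝ) ^ e)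
    [Fintype (Yc N c)] :
    ∑ y : Yc N c, (((pk y.1).2 + 1 : ℕ) : ℝ) * |τ y.1 (Qc c)| ≤
      C * D * (Qc c : ℝ) ^ ((e : ℝ) + 1 / 2) := by
  obtain ⟨F, _, _, hF⟩ := exists_F c
  have hF' : Nat.card F = Qc c := by rw [Nat.card_eq_fintype_card]; exact hF
  have hQ : (0 : ℝ) < (Qc c : ℝ) := by exact_mod_cast Qc_pos c
  have hb : ∀ y : Yc N c, |τ y.1 (Qc c)| ≤ D * √(Qc c : ℝ) := by
    intro y
    have h1 : 0 < Nat.card {φ : R →+* F // ptOf φ = y.1} := by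
      rw [card_fib hF' y]
      omega
    obtain ⟨φ⟩ := (Nat.card_pos_iff.1 h1).1
    rw [← hF', ← φ.2]
    exact hτ F φ.1
  have h1 : ∑ y : Yc N c, (((pk y.1).2 + 1 : ℕ) : ℝ) * |τ y.1 (Qc c)| ≤
      ∑ y : Yc N c, (((pk y.1).2 + 1 : ℕ) : ℝ) * (D * √(Qc c : ℝ)) :=
    Finset.sum_le_sum fun y _ => mul_le_mul_of_nonneg_left (hb y) (Nat.cast_nonneg _)
  refine h1.trans ?_
  rw [← sum_Yc hF' (fun _ => D * √(Qc c : ℝ))]
  let _ : Fintype {φ : R →+* F // φ N ≠ 0} := Fintype.ofFinite _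
  rw [finsum_eq_sum_of_fintype, Finset.sum_const, nsmul_eq_mul, Finset.card_univ,
    ← Nat.card_eq_fintype_card]
  have h2 : (Nat.card {φ : R →+* F // φ N ≠ 0} : ℝ) ≤ C * (Qc c : ℝ) ^ e := by
    refine le_trans ?_ ((hC F).trans (le_of_eq (by rw [hF'])))
    exact_mod_cast Nat.card_le_card_of_injective _ Subtype.val_injective
  calc _ ≤ C * (Qc c : ℝ) ^ e * (D * √(Qc c : ℝ)) :=
        mul_le_mul_of_nonneg_right h2 (by positivity)
    _ = C * D * (Qc c : ℝ) ^ ((e : ℝ) + 1 / 2) := by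
        rw [Real.rpow_add hQ, Real.rpow_natCast, ← Real.sqrt_eq_rpow]
        ring

theorem tg_boundH (hD : 0 ≤ D) (hτ : ∀ (F : Type) [Field F] [Finite F] (φ : R →+* F),
      |τ (ptOf φ) (Nat.card F)| ≤ D * √(Nat.card F : ℝ)) {e : ℕ} {C : ℝ} (hC0 : 0 ≤ C)
    (hC : ∀ (F : Type) [Field F] [Finite F], (Nat.card (R →+* F) : ℝ) ≤ C * (Nat.card F : ℝ) ^ e) :
    |TG τ N c| ≤ C * D * (Qc c : ℝ) ^ ((e : ℝ) + 1 / 2) := by
  have := finite_Yc (N := N) (c := c)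
  let _ := Fintype.ofFinite (Yc N c)
  rw [tg_eq]
  refine (Finset.abs_sum_le_sum_abs _ _).trans (le_trans (le_of_eq ?_)
    (fib_normH (N := N) (c := c) hD hτ hC0 hC))
  refine Finset.sum_congr rfl fun y _ => ?_
  rw [abs_mul, Nat.abs_cast]

/-- **The sum over the closed points.** -/
theorem hasSum_ptsH (hD : 0 ≤ D) (hτ : ∀ (F : Type) [Field F] [Finite F] (φ : R →+* F),
      |τ (ptOf φ) (Nat.card F)| ≤ D * √(Nat.card F : ℝ)) {e : ℕ} {C : ℝ} (hC0 : 0 ≤ C)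
    (hC : ∀ (F : Type) [Field F] [Finite F], (Nat.card (R →+* F) : ℝ) ≤ C * (Nat.card F : ℝ) ^ e)
    {s : ℂ} (hs : (e : ℝ) + 3 / 2 < s.re) :
    HasSum (fun y : {y : Pt R // N ∉ y.asIdeal} => ∑' j : ℕ, tmG τ N s (y, j))
      (∑' c : Nat.Primes × ℕ, ((TG τ N c * ((c.2 + 1 : ℕ) : ℝ)⁻¹ : ℝ) : ℂ) * ((Qc c : ℕ) : ℂ) ^ (-s)) := by
  classical
  have hfin : ∀ c : Nat.Primes × ℕ, Finite (Yc N c) := fun c => finite_Yc
  let _ : ∀ c : Nat.Primes × ℕ, Fintype (Yc N c) := fun c => Fintype.ofFinite _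
  let _ : ∀ c : Nat.Primes × ℕ, Fintype {x : {y : Pt R // N ∉ y.asIdeal} × ℕ // pi N x = c} :=
    fun c => Fintype.ofEquiv _ (fibEq N c).symm
  -- summability
  have hn : ∀ (c : Nat.Primes × ℕ) (x : {x : {y : Pt R // N ∉ y.asIdeal} × ℕ // pi N x = c}),
      ‖tmG τ N s x.1‖ = ((((pk (fibEq N c x).1).2 + 1 : ℕ) : ℝ) * |τ (fibEq N c x).1 (Qc c)|) *
        (((c.2 + 1 : ℕ) : ℝ)⁻¹ * (Qc c : ℝ) ^ (-s.re)) := by
    intro c x
    rw [tmG_fib, norm_mul, norm_mul, Complex.norm_real, Complex.norm_real,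
      Complex.norm_natCast_cpow_of_pos (Qc_pos c), Complex.neg_re, Real.norm_eq_abs, Real.norm_eq_abs,
      abs_mul, Nat.abs_cast, abs_of_nonneg (a := ((c.2 + 1 : ℕ) : ℝ)⁻¹) (by positivity)]
  have hsum : Summable (fun x => ‖tmG τ N s x‖) := by
    rw [← (Equiv.sigmaFiberEquiv (pi N)).summable_iff]
    refine (summable_sigma_of_nonneg (f := (fun x => ‖tmG τ N s x‖) ∘ (Equiv.sigmaFiberEquiv (pi N)))
      (fun x => norm_nonneg _)).2 ⟨fun c => ?_, ?_⟩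
    · exact (hasSum_fintype _).summable
    · have h1 := (summable_Q (s.re - e - 1 / 2) (by linarith) 0 (by push_cast; linarith)).mul_left
        (C * D)
      refine Summable.of_nonneg_of_le (fun c => tsum_nonneg fun x => norm_nonneg _) (fun c => ?_) h1
      rw [tsum_fintype]
      have h2 : ∀ x : {x : {y : Pt R // N ∉ y.asIdeal} × ℕ // pi N x = c},
          ((fun x => ‖tmG τ N s x‖) ∘ (Equiv.sigmaFiberEquiv (pi N))) ⟨c, x⟩ =
          ((((pk (fibEq N c x).1).2 + 1 : ℕ) : ℝ) * |τ (fibEq N c x).1 (Qc c)|) *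
            (((c.2 + 1 : ℕ) : ℝ)⁻¹ * (Qc c : ℝ) ^ (-s.re)) := fun x => hn c x
      rw [Finset.sum_congr rfl fun x _ => h2 x, ← Finset.sum_mul]
      rw [(fibEq N c).sum_comp (fun y => (((pk y.1).2 + 1 : ℕ) : ℝ) * |τ y.1 (Qc c)|)]
      have h3 := fib_normH (N := N) (c := c) hD hτ hC0 hC
      have hQ : (0 : ℝ) < (Qc c : ℝ) := by exact_mod_cast Qc_pos c
      have h4 : ((c.2 + 1 : ℕ) : ℝ)⁻¹ ≤ 1 := inv_le_one_of_one_le₀ (by
        push_cast
        have : (0 : ℝ) ≤ c.2 := Nat.cast_nonneg _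
        linarith)
      have hnn : 0 ≤ ∑ y : Yc N c, (((pk y.1).2 + 1 : ℕ) : ℝ) * |τ y.1 (Qc c)| :=
        Finset.sum_nonneg fun y _ => mul_nonneg (Nat.cast_nonneg _) (abs_nonneg _)
      rw [if_pos (Nat.zero_le _)]
      calc _ ≤ (C * D * (Qc c : ℝ) ^ ((e : ℝ) + 1 / 2)) * (1 * (Qc c : ℝ) ^ (-s.re)) := by
            refine mul_le_mul h3 (mul_le_mul_of_nonneg_right h4 (by positivity)) (by positivity)
              (by positivity)
        _ = C * D * (Qc c : ℝ) ^ (-(s.re - e - 1 / 2)) := by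
            rw [one_mul, mul_assoc, ← Real.rpow_add hQ]
            congr 2
            ring
  have hS : Summable (tmG τ N s) := hsum.of_norm
  obtain ⟨S, hS⟩ := hS
  -- the fibres
  have h1 : HasSum ((tmG τ N s) ∘ (Equiv.sigmaFiberEquiv (pi N))) S :=
    (Equiv.sigmaFiberEquiv (pi N)).hasSum_iff.2 hS
  have h2 : HasSum (fun c : Nat.Primes × ℕ => ((TG τ N c * ((c.2 + 1 : ℕ) : ℝ)⁻¹ : ℝ) : ℂ) *
      ((Qc c : ℕ) : ℂ) ^ (-s)) S := by
    refine h1.sigma fun c => ?_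
    have h3 := hasSum_fintype (fun x : {x : {y : Pt R // N ∉ y.asIdeal} × ℕ // pi N x = c} =>
      ((tmG τ N s) ∘ (Equiv.sigmaFiberEquiv (pi N))) ⟨c, x⟩)
    have h4 : ∀ x : {x : {y : Pt R // N ∉ y.asIdeal} × ℕ // pi N x = c},
        ((tmG τ N s) ∘ (Equiv.sigmaFiberEquiv (pi N))) ⟨c, x⟩ =
        (((((pk (fibEq N c x).1).2 + 1 : ℕ) : ℝ) * τ (fibEq N c x).1 (Qc c) : ℝ) : ℂ) *
      ((((c.2 + 1 : ℕ) : ℝ)⁻¹ : ℝ) * ((Qc c : ℕ) : ℂ) ^ (-s)) := fun x => tmG_fib τ s x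
    rw [Finset.sum_congr rfl fun x _ => h4 x, ← Finset.sum_mul, ← Complex.ofReal_sum,
      (fibEq N c).sum_comp (fun y => (((pk y.1).2 + 1 : ℕ) : ℝ) * τ y.1 (Qc c)), ← tg_eq,
      ← mul_assoc, ← Complex.ofReal_mul] at h3
    exact h3
  rw [h2.tsum_eq]
  refine hS.prod_fiberwise fun y => ?_
  exact (hS.summable.prod_factor y).hasSum

/-- **The Euler product.** -/
theorem hasProd_ptsH (hD : 0 ≤ D) (hτ : ∀ (F : Type) [Field F] [Finite F] (φ : R →+* F),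
      |τ (ptOf φ) (Nat.card F)| ≤ D * √(Nat.card F : ℝ)) {e : ℕ} {C : ℝ} (hC0 : 0 ≤ C)
    (hC : ∀ (F : Type) [Field F] [Finite F], (Nat.card (R →+* F) : ℝ) ≤ C * (Nat.card F : ℝ) ^ e)
    {s : ℂ} (hs : (e : ℝ) + 3 / 2 < s.re) :
    HasProd (fun y : {y : Pt R // N ∉ y.asIdeal} => ZG τ y.1 ((qy y.1 : ℂ) ^ (-s)))
      (Complex.exp (∑' c : Nat.Primes × ℕ, ((TG τ N c * ((c.2 + 1 : ℕ) : ℝ)⁻¹ : ℝ) : ℂ) *
        ((Qc c : ℕ) : ℂ) ^ (-s))) := by
  have h1 := (hasSum_ptsH (N := N) hD hτ hC0 hC hs).cexp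
  have h2 : (fun y : {y : Pt R // N ∉ y.asIdeal} => ZG τ y.1 ((qy y.1 : ℂ) ^ (-s))) =
      Complex.exp ∘ fun y : {y : Pt R // N ∉ y.asIdeal} => ∑' j : ℕ, tmG τ N s (y, j) := by
    funext y
    unfold ZG
    show _ = Complex.exp (∑' j : ℕ, tmG τ N s (y, j))
    congr 1
    refine tsum_congr fun j => ?_
    unfold tmG
    show _ = ((τ y.1 (qy y.1 ^ (j + 1)) / ((j + 1 : ℕ) : ℝ) : ℝ) : ℂ) *
      ((qy y.1 ^ (j + 1) : ℕ) : ℂ) ^ (-s)
    rw [Nat.cast_pow, Complex.ofReal_div, Complex.ofReal_natCast]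
    congr 1
    rw [← Complex.natCast_cpow_natCast_mul, mul_comm, Complex.cpow_mul_nat]
  rw [h2]
  exact h1

/-- **The order of the Euler product.** -/
theorem euler_half (hD : 0 ≤ D) (hτ : ∀ (F : Type) [Field F] [Finite F] (φ : R →+* F),
      |τ (ptOf φ) (Nat.card F)| ≤ D * √(Nat.card F : ℝ)) {e : ℕ} {C : ℝ} (hC0 : 0 ≤ C)
    (hC : ∀ (F : Type) [Field F] [Finite F], (Nat.card (R →+* F) : ℝ) ≤ C * (Nat.card F : ℝ) ^ e)
    {r : ℤ} (hT : Asy (fun F _ _ => ∑ᶠ φ : {φ : R →+* F // φ N ≠ 0}, τ (ptOf φ.1) (Nat.card F)) e r) :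
    ∃ Φ : ℂ → ℂ,
      (∀ s : ℂ, (e : ℝ) + 3 / 2 < s.re → HasProd (fun y : {y : Pt R // N ∉ y.asIdeal} =>
        ZG τ y.1 ((qy y.1 : ℂ) ^ (-s))) (Φ s)) ∧
      DifferentiableOn ℂ Φ {s : ℂ | (e : ℝ) + 1 < s.re} ∧
      MeromorphicAt Φ ((e : ℂ) + 1) ∧ meromorphicOrderAt Φ ((e : ℂ) + 1) = ((-r : ℤ) : WithTop ℤ) := by
  classical
  obtain ⟨κ, iκ, L, iL, nL, a, hr, K, M, hK, hM, hT⟩ := hT
  set B := cB L a with hB
  have hB0 : 0 ≤ B := cB_nonneg L a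
  have hM0 : (0 : ℝ) ≤ M := Nat.cast_nonneg _
  have hM' : ((M : ℕ) : ℤ) ≠ 0 := by exact_mod_cast hM
  have hle : ∀ (c : Nat.Primes × ℕ) {F : Type} [Field F] [Fintype F],
      Fintype.card F = Qc c → ((M : ℕ) : F) = 0 → ((c.1 : ℕ) : ℝ) ≤ M := by
    intro c F _ _ hF h0
    have h1 := le_of_cast_zero c.1 c.2 hF _ hM' (by exact_mod_cast h0)
    simpa using h1
  have hspec : ∀ c : Nat.Primes × ℕ, ∃ (F : Type) (_ : Field F) (_ : Fintype F),
      Fintype.card F = Qc c ∧ TG τ N c = ∑ᶠ φ : {φ : R →+* F // φ N ≠ 0}, τ (ptOf φ.1) (Nat.card F) := by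
    intro c
    letI : Field (exists_F c).choose := (exists_F c).choose_spec.choose
    letI : Fintype (exists_F c).choose := (exists_F c).choose_spec.choose_spec.choose
    have hF : Fintype.card (exists_F c).choose = Qc c :=
      (exists_F c).choose_spec.choose_spec.choose_spec
    refine ⟨(exists_F c).choose, inferInstance, inferInstance, hF, ?_⟩
    rw [Nat.card_eq_fintype_card, hF]
    rfl
  -- good characteristics
  have hgood : ∀ (F : Type) [Field F] [Finite F], ((M : ℕ) : F) ≠ 0 →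
      |∑ᶠ φ : {φ : R →+* F // φ N ≠ 0}, τ (ptOf φ.1) (Nat.card F)| ≤
        (K + B) * (Nat.card F : ℝ) ^ e := by
    intro F _ _ hF
    have h1 := hT F hF
    have hq1 : (1 : ℝ) ≤ Nat.card F := by exact_mod_cast Nat.card_pos
    have hs1 : 1 ≤ √(Nat.card F : ℝ) := Real.one_le_sqrt.2 hq1
    have hqe : (0 : ℝ) ≤ (Nat.card F : ℝ) ^ e := by positivity
    have h3 : |(∑ᶠ φ : {φ : R →+* F // φ N ≠ 0}, τ (ptOf φ.1) (Nat.card F)) -
        cF L a F * (Nat.card F : ℝ) ^ e| ≤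
        K * (Nat.card F : ℝ) ^ e := (le_mul_of_one_le_right (abs_nonneg _) hs1).trans h1
    have h4 : |cF L a F * (Nat.card F : ℝ) ^ e| ≤ B * (Nat.card F : ℝ) ^ e := by
      rw [abs_mul, abs_of_nonneg hqe]
      exact mul_le_mul_of_nonneg_right (cF_le L a F) hqe
    have h5 := abs_add_le ((∑ᶠ φ : {φ : R →+* F // φ N ≠ 0}, τ (ptOf φ.1) (Nat.card F)) -
      cF L a F * (Nat.card F : ℝ) ^ e) (cF L a F * (Nat.card F : ℝ) ^ e)
    rw [sub_add_cancel] at h5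
    linarith
  set K' : ℝ := K + B + C * D + C * D * M with hK'
  have hK'0 : 0 ≤ K' := by positivity
  have hCDM : 0 ≤ C * D * M := by positivity
  have hCD : 0 ≤ C * D := by positivity
  -- the general bound
  have hsmall : ∀ c : Nat.Primes × ℕ, c.2 ≤ 1 → |TG τ N c| ≤ K' * (Qc c : ℝ) ^ e := by
    intro c hc
    obtain ⟨F, _, _, hF, hTc⟩ := hspec c
    have hcard : (Nat.card F : ℝ) = (Qc c : ℝ) := by rw [Nat.card_eq_fintype_card, hF]
    have hQ : (0 : ℝ) < (Qc c : ℝ) := by exact_mod_cast Qc_pos c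
    have hQe : (0 : ℝ) ≤ (Qc c : ℝ) ^ e := by positivity
    by_cases hMF : ((M : ℕ) : F) = 0
    · have h6 := hle c hF hMF
      have h7 := tg_boundH (N := N) (c := c) hD hτ hC0 hC
      have hp1 : (1 : ℝ) ≤ ((c.1 : ℕ) : ℝ) := by exact_mod_cast c.1.2.pos
      have h8 : √(Qc c : ℝ) ≤ ((c.1 : ℕ) : ℝ) := by
        rw [Real.sqrt_le_left (by linarith)]
        have : (Qc c : ℝ) = ((c.1 : ℕ) : ℝ) ^ (c.2 + 1) := by
          unfold Qc
          push_cast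
          rfl
        rw [this]
        exact pow_le_pow_right₀ hp1 (by omega)
      rw [Real.rpow_add hQ, Real.rpow_natCast, ← Real.sqrt_eq_rpow] at h7
      calc |TG τ N c| ≤ C * D * ((Qc c : ℝ) ^ e * √(Qc c : ℝ)) := h7
        _ ≤ C * D * ((Qc c : ℝ) ^ e * M) := by
            refine mul_le_mul_of_nonneg_left ?_ hCD
            exact mul_le_mul_of_nonneg_left (h8.trans h6) hQe
        _ = (C * D * M) * (Qc c : ℝ) ^ e := by ring
        _ ≤ K' * (Qc c : ℝ) ^ e := mul_le_mul_of_nonneg_right (by rw [hK']; linarith) hQe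
    · have h6 := hgood F hMF
      rw [← hTc, hcard] at h6
      exact h6.trans (mul_le_mul_of_nonneg_right (by rw [hK']; linarith) hQe)
  let A : Nat.Primes × ℕ → ℂ := fun c => ((TG τ N c * ((c.2 + 1 : ℕ) : ℝ)⁻¹ : ℝ) : ℂ)
  have hA : ∀ c, ‖A c‖ ≤ |TG τ N c| := by
    intro c
    show ‖((TG τ N c * ((c.2 + 1 : ℕ) : ℝ)⁻¹ : ℝ) : ℂ)‖ ≤ _
    rw [Complex.norm_real, Real.norm_eq_abs, abs_mul,
      abs_of_nonneg (a := ((c.2 + 1 : ℕ) : ℝ)⁻¹) (by positivity)]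
    refine mul_le_of_le_one_right (abs_nonneg _) (inv_le_one_of_one_le₀ ?_)
    push_cast
    have : (0 : ℝ) ≤ c.2 := Nat.cast_nonneg _
    linarith
  have hCB : CB A e K' := by
    refine ⟨hK'0, ?_, ?_, ?_⟩
    · intro p
      refine (hA _).trans ((hsmall (p, 0) (Nat.zero_le _)).trans (le_of_eq ?_))
      rw [Qc_zero]
    · intro p
      refine (hA _).trans ((hsmall (p, 1) le_rfl).trans (le_of_eq ?_))
      rw [Qc, Nat.cast_pow, ← pow_mul]
    · intro c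
      refine (hA _).trans ((tg_boundH (N := N) (c := c) hD hτ hC0 hC).trans ?_)
      exact mul_le_mul_of_nonneg_right (by rw [hK']; linarith) (by positivity)
  have hcof : ∀ᶠ p : Nat.Primes in Filter.cofinite, ((M : ℕ) : ZMod (p : ℕ)) ≠ 0 := by
    have hfin : {p : Nat.Primes | ((M : ℕ) : ZMod (p : ℕ)) = 0}.Finite := by
      refine Set.Finite.of_injOn (f := fun p : Nat.Primes => (p : ℕ)) (t := (M.primeFactors : Set ℕ)) ?_
        ?_ (Finset.finite_toSet _)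
      · intro p hp
        rw [Set.mem_ofPred_eq, ZMod.natCast_eq_zero_iff] at hp
        exact Nat.mem_primeFactors.2 ⟨p.2, hp, hM⟩
      · intro p _ q _ h
        exact Subtype.ext h
    rw [Filter.eventually_cofinite]
    simpa only [ne_eq, not_not] using hfin
  have b : ∀ᶠ p : Nat.Primes in Filter.cofinite,
      ‖A (p, 0) / (((p : ℕ) : ℂ) ^ e) + cmb L (fun j => -a j) p‖ ≤
        K' * ((p : ℕ) : ℝ) ^ (-(1 / 2) : ℝ) := by
    filter_upwards [hcof] with p hp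
    have : Fact (p : ℕ).Prime := ⟨p.2⟩
    have hp0 : (0 : ℝ) < ((p : ℕ) : ℝ) := by exact_mod_cast p.2.pos
    obtain ⟨F, _, _, hF, hTc⟩ := hspec (p, 0)
    have hF' : Fintype.card F = (p : ℕ) := by rw [hF, Qc_zero]
    have hcard : (Nat.card F : ℝ) = ((p : ℕ) : ℝ) := by rw [Nat.card_eq_fintype_card, hF']
    let ε : F ≃+* ZMod (p : ℕ) := FiniteField.ringEquivOfCardEq (by rw [hF', ZMod.card])
    have hMF : ((M : ℕ) : F) ≠ 0 := by
      intro h0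
      apply hp
      have := congrArg ε h0
      rwa [map_natCast, map_zero] at this
    have h1 : |(∑ᶠ φ : {φ : R →+* F // φ N ≠ 0}, τ (ptOf φ.1) (Nat.card F)) -
        cF L a F * (Nat.card F : ℝ) ^ e| * √(Nat.card F : ℝ) ≤ K * (Nat.card F : ℝ) ^ e := hT F hMF
    rw [← hTc, hcard] at h1
    have hA0 : A (p, 0) = ((TG τ N (p, 0) : ℝ) : ℂ) := by
      show ((TG τ N (p, 0) * ((0 + 1 : ℕ) : ℝ)⁻¹ : ℝ) : ℂ) = _
      norm_num
    have hneg : cF L (fun j => -a j) F = -cF L a F := by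
      unfold cF
      rw [← Finset.sum_neg_distrib]
      exact Finset.sum_congr rfl fun j _ => by ring
    rw [hA0, cmb_eq, ← cF_iso L (fun j => -a j) ε, hneg, ← Complex.ofReal_natCast, ← Complex.ofReal_pow,
      ← Complex.ofReal_div, ← Complex.ofReal_add, Complex.norm_real, Real.norm_eq_abs]
    have hpe : (0 : ℝ) < ((p : ℕ) : ℝ) ^ e := by positivity
    have hs : 0 < √((p : ℕ) : ℝ) := Real.sqrt_pos.2 hp0
    have h3 : TG τ N (p, 0) / ((p : ℕ) : ℝ) ^ e + -cF L a F =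
        (TG τ N (p, 0) - cF L a F * ((p : ℕ) : ℝ) ^ e) / ((p : ℕ) : ℝ) ^ e := by
      field_simp
      ring
    have h4 : ((p : ℕ) : ℝ) ^ (-(1 / 2) : ℝ) = (√((p : ℕ) : ℝ))⁻¹ := by
      rw [Real.sqrt_eq_rpow, ← Real.rpow_neg hp0.le]
    rw [h3, h4, abs_div, abs_of_pos hpe, div_le_iff₀ hpe, ← div_eq_mul_inv]
    rw [div_mul_eq_mul_div, le_div_iff₀ hs]
    refine h1.trans (mul_le_mul_of_nonneg_right ?_ hpe.le)
    rw [hK']
    linarith
  obtain ⟨Φ, g1, g2, g3, g4⟩ := core3 hCB L (fun j => -a j) (r := -r)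
    (by rw [Finset.sum_neg_distrib, hr]; push_cast; rfl) b
  refine ⟨Φ, ?_, g2, g3, g4⟩
  intro s hs
  rw [g1 s (by linarith)]
  exact hasProd_ptsH (N := N) hD hτ hC0 hC hs

end

end Pool.Agent.R410.EP
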