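import Pool.Agent.R410.NG.Trc
import Pool.Agent.TH958.An.Pts

/-!
# The points of `y² = g(x)` over the extensions of a finite field
-/

set_option autoImplicit false
set_option linter.all false

open Polynomial

namespace Pool.Agent.R410.EP

open Pool.Agent.R410.NG (trc trc_bound trc_iso)
open Pool.Agent.H126R3 (pair_unique Qc exists_F)
open Pool.Agent.TH958.An

section
variable {k : Type} [Field k]

/-- the number of the points of `y² = g(x)` over the algebraic closure which are fixed by the `n`-th
power -/
noncomputable def pts (k : Type) [Field k] (g : k[X]) (n : ℕ) : ℕ :=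
  Nat.card {P : AlgebraicClosure k × AlgebraicClosure k //
    P.1 ^ n = P.1 ∧ P.2 ^ n = P.2 ∧ P.2 ^ 2 = aeval P.1 g}

/-- the trace -/
noncomputable def trn (k : Type) [Field k] (g : k[X]) (n : ℕ) : ℝ := (n : ℝ) - pts k g n

/-- the elements of a finite field in an algebraically closed field -/
theorem range_eq {F U : Type} [Field F] [Fintype F] [Field U] (σ : F →+* U) (x : U) :
    x ^ Fintype.card F = x ↔ ∃ z : F, σ z = x := by
  classical
  constructor
  · intro h
    have hcard : 1 < Fintype.card F := Fintype.one_lt_card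
    have hne : (X ^ Fintype.card F - X : U[X]) ≠ 0 := FiniteField.X_pow_card_sub_X_ne_zero U hcard
    have hsub : (Finset.univ : Finset F).image σ ⊆ (X ^ Fintype.card F - X : U[X]).roots.toFinset := by
      intro y hy
      obtain ⟨z, -, rfl⟩ := Finset.mem_image.1 hy
      rw [Multiset.mem_toFinset, mem_roots hne, IsRoot.def, eval_sub, eval_pow, eval_X, ← map_pow,
        FiniteField.pow_card, sub_self]
    have hc1 : ((Finset.univ : Finset F).image σ).card = Fintype.card F := by
      rw [Finset.card_image_of_injective _ σ.injective, Finset.card_univ]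
    have hc2 : ((X ^ Fintype.card F - X : U[X]).roots.toFinset).card ≤ Fintype.card F := by
      refine (Multiset.toFinset_card_le _).trans ((card_roots' _).trans ?_)
      rw [FiniteField.X_pow_card_sub_X_natDegree_eq U hcard]
    have heq := Finset.eq_of_subset_of_card_le hsub (by rw [hc1]; exact hc2)
    have hx : x ∈ (X ^ Fintype.card F - X : U[X]).roots.toFinset := by
      rw [Multiset.mem_toFinset, mem_roots hne, IsRoot.def, eval_sub, eval_pow, eval_X, h, sub_self]
    rw [← heq] at hx
    obtain ⟨z, -, hz⟩ := Finset.mem_image.1 hx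
    exact ⟨z, hz⟩
  · rintro ⟨z, rfl⟩
    rw [← map_pow, FiniteField.pow_card]

/-- **The points over an extension.** -/
theorem trn_eq {F : Type} [Field F] [Finite F] (σ : k →+* F) (g : k[X]) :
    trn k g (Nat.card F) = trc F (g.map σ) := by
  classical
  have hfin := Fintype.ofFinite F
  let _ : Algebra k F := σ.toAlgebra
  have : Finite k := Finite.of_injective σ σ.injective
  have hint : Algebra.IsAlgebraic k F := by
    have : Module.Finite k F := Module.Finite.of_finite
    infer_instance
  let τ : F →ₐ[k] AlgebraicClosure k := IsAlgClosed.lift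
  have hrange : ∀ x : AlgebraicClosure k, x ^ Nat.card F = x ↔ ∃ z : F, τ z = x := by
    intro x
    rw [Nat.card_eq_fintype_card]
    exact range_eq (τ : F →+* AlgebraicClosure k) x
  have hev : ∀ x : F, aeval (τ x) g = τ ((g.map σ).eval x) := by
    intro x
    rw [aeval_algHom_apply, eval_map]
    rfl
  unfold trn trc pts
  congr 2
  refine (Nat.card_congr (Equiv.ofBijective (fun P : {P : F × F // P.2 ^ 2 = (g.map σ).eval P.1} =>
    (⟨(τ P.1.1, τ P.1.2), (hrange _).2 ⟨_, rfl⟩, (hrange _).2 ⟨_, rfl⟩, by
      show τ P.1.2 ^ 2 = aeval (τ P.1.1) g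
      rw [hev, ← map_pow, P.2]⟩ : {P : AlgebraicClosure k × AlgebraicClosure k //
    P.1 ^ Nat.card F = P.1 ∧ P.2 ^ Nat.card F = P.2 ∧ P.2 ^ 2 = aeval P.1 g})) ⟨?_, ?_⟩)).symm
  · intro P P' h
    have h1 := congrArg (fun w => w.1) h
    have h2 := Prod.ext_iff.1 h1
    exact Subtype.ext (Prod.ext (τ.injective h2.1) (τ.injective h2.2))
  · rintro ⟨⟨x, y⟩, h1, h2, h3⟩
    obtain ⟨x, rfl⟩ := (hrange _).1 h1
    obtain ⟨y, rfl⟩ := (hrange _).1 h2
    refine ⟨⟨(x, y), ?_⟩, rfl⟩
    apply τ.injective
    show τ (y ^ 2) = τ ((g.map σ).eval x)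
    rw [map_pow, ← hev]
    exact h3

end

section
variable {k F : Type} [Field k] [Finite k] [Field F] [Finite F]

/-- the number of the embeddings of finite fields -/
theorem card_emb {p : ℕ} [Fact p.Prime] {f n : ℕ} (hk : Nat.card k = p ^ f) (hF : Nat.card F = p ^ n)
    (hf : f ≠ 0) (hn : n ≠ 0) (hd : f ∣ n) : Nat.card (k →+* F) = f := by
  have := Fintype.ofFinite k
  have := Fintype.ofFinite F
  rw [Nat.card_eq_fintype_card] at hk hF
  obtain ⟨f', rfl⟩ := Nat.exists_eq_succ_of_ne_zero hf
  obtain ⟨n', rfl⟩ := Nat.exists_eq_succ_of_ne_zero hn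
  have hck : CharP k p := charP_of_card_eq_prime_pow hk
  have hcF : CharP F p := charP_of_card_eq_prime_pow hF
  let _ := ZMod.algebra k p
  let _ := ZMod.algebra F p
  have h1 : Module.finrank (ZMod p) k = f'.succ := by
    have h1 := Module.card_eq_pow_finrank (K := ZMod p) (V := k)
    rw [hk, ZMod.card] at h1
    exact (Nat.pow_right_injective (Fact.out : p.Prime).two_le h1).symm
  have h2 : Module.finrank (ZMod p) F = n'.succ := by
    have h1 := Module.card_eq_pow_finrank (K := ZMod p) (V := F)
    rw [hF, ZMod.card] at h1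
    exact (Nat.pow_right_injective (Fact.out : p.Prime).two_le h1).symm
  have h3 := FiniteField.natCard_algHom_of_finrank_dvd (F := ZMod p) (K := k) (L := F) (by rw [h1, h2]; exact hd)
  rw [h1] at h3
  rw [← h3]
  have hcomm : ∀ (φ : k →+* F) (r : ZMod p), φ (algebraMap (ZMod p) k r) = algebraMap (ZMod p) F r := by
    intro φ r
    have : φ.comp (algebraMap (ZMod p) k) = algebraMap (ZMod p) F := Subsingleton.elim _ _
    exact congrArg (fun g => g r) this
  refine Nat.card_congr
    { toFun := fun φ => AlgHom.mk φ (hcomm φ)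
      invFun := fun φ => φ.toRingHom
      left_inv := fun φ => by ext x; rfl
      right_inv := fun φ => by ext x; rfl }

end

end Pool.Agent.R410.EP
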