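import Pool.Agent.R410.EP.Ord
import Pool.Agent.R410.NG.Asy
import Pool.Agent.R410.NG.CBw

/-!
# The order of the Euler product for every model
-/

set_option autoImplicit false
set_option linter.all false
set_option maxHeartbeats 1000000

open Polynomial NumberField Filter

namespace Pool.Agent.R410.EP

open Pool.Agent.R410.NG
open Pool.Agent.TH958.An
open Pool.Agent.R410.BS (cF cF_le cB cB_nonneg cmb_eq hom_le)
open Pool.Agent.R410.LW (FG)
open Pool.Agent.R410.CB (Spl fq fq_eq)
open Pool.Agent.Y707.PC (up up_def)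

section
variable {R B K : Type} [CommRing R] [IsDomain R] [CommRing B] [IsDomain B] [Field K]
  [CharZero K] [Algebra R K] [IsFractionRing R K] [Algebra B K] [IsFractionRing B K]
  [Algebra.FiniteType ℤ R] [Algebra.FiniteType ℤ B]

theorem sT_int {R : Type} [CommRing R] [Algebra.FiniteType ℤ R] (g : Unit → R[X]) (N : R) (F : Type)
    [Field F] [Finite F] : sT wtc g N F = sR wtc (Int.castRingHom R) g N F (Int.castRingHom F) := by
  classical
  let _ : Fintype (ℤ →+* F) := Fintype.ofFinite _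
  rw [sT_sum wtc (Int.castRingHom R), Finset.sum_eq_single (Int.castRingHom F)]
  · intro ψ _ h
    exact (h (Subsingleton.elim _ _)).elim
  · intro h
    exact (h (Finset.mem_univ _)).elim

/-- **The order of the Euler product for every model.** -/
theorem euler_any {e : ℕ} (he : Algebra.trdeg ℚ K ≤ e) {G : R[X]} (hG : G.Monic)
    (hodd : Odd G.natDegree) {g' : Unit → B[X]}
    (hgg : G.map (algebraMap R K) = (g' ()).map (algebraMap B K)) {N : R} (hN : N ≠ 0) {N' : B}
    (hN' : N' ≠ 0) {r : ℤ} (hasy : Asy (fun F _ _ => sT wtc g' N' F) e r) :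
    ∃ Φ : ℂ → ℂ,
      (∀ s : ℂ, (e : ℝ) + 3 / 2 < s.re → HasProd (fun y : {y : Pt R // N ∉ y.asIdeal} =>
        Zy G y.1 ((qy y.1 : ℂ) ^ (-s))) (Φ s)) ∧
      DifferentiableOn ℂ Φ {s : ℂ | (e : ℝ) + 1 < s.re} ∧
      MeromorphicAt Φ ((e : ℂ) + 1) ∧ meromorphicOrderAt Φ ((e : ℂ) + 1) = r := by
  obtain ⟨κ, iκ, L, iL, nL, α, hα, C2, N2, hC2, hN2, g2⟩ := hasy
  have hw : IsWt wtc (fun _ : Unit => G.natDegree) ((G.natDegree : ℕ) : ℝ) := isWt_trc hodd
  obtain ⟨C1, N1, hC1, hN1, g1⟩ := transfer_sum hw he (Int.castRingHom R) (Int.castRingHom B)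
    (Subsingleton.elim _ _) (g := fun _ : Unit => G) (g' := g') (fun _ => hgg) (fun _ => ⟨hG, rfl⟩)
    hN hN'
  obtain ⟨C3, hC3, g3⟩ := hom_le (R := R) (K := K) (IsFractionRing.injective R K) he
  refine euler_R hG hodd hC3 (fun F _ _ => g3 F) L α hα (N1 * N2) (mul_ne_zero hN1 hN2) (C1 + C2)
    (add_nonneg hC1 hC2) ?_
  intro F _ _ hF
  rw [Nat.cast_mul] at hF
  have e1 := g1 F (left_ne_zero_of_mul hF) (Int.castRingHom F)
  have e2 := g2 F (right_ne_zero_of_mul hF)
  rw [← sT_int, ← sT_int] at e1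
  have hs : 0 ≤ √(Nat.card F : ℝ) := Real.sqrt_nonneg _
  calc |sT wtc (fun _ : Unit => G) N F - cF L α F * (Nat.card F : ℝ) ^ e| * √(Nat.card F : ℝ) ≤
      (|sT wtc (fun _ : Unit => G) N F - sT wtc g' N' F| +
        |sT wtc g' N' F - cF L α F * (Nat.card F : ℝ) ^ e|) * √(Nat.card F : ℝ) :=
        mul_le_mul_of_nonneg_right (abs_sub_le _ _ _) hs
    _ ≤ (C1 + C2) * (Nat.card F : ℝ) ^ e := by
        rw [add_mul, add_mul]
        exact add_le_add e1 e2

end

section
variable {M K : Type} [Field M] [CharZero M] [Field K] [CharZero K] [Algebra M K] {ω : K}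

open Classical in
/-- the model of the line -/
theorem model_cb (hM : FG M) {d : ℕ}
    (hd : Algebra.trdeg ℚ M = d) (hω : Transcendental M ω)
    (htop : IntermediateField.adjoin M {ω} = ⊤) {a b c : M[X]} (hΔ : b ^ 2 - 4 * a * c ≠ 0) :
    ∃ (B : Type) (_ : CommRing B) (_ : IsDomain B) (_ : Algebra B K) (_ : IsFractionRing B K)
      (_ : Algebra.FiniteType ℤ B) (g' : Unit → B[X]), (g' ()).map (algebraMap B K) = fq a b c ω ∧
      Asy (fun F _ _ => sT wtc g' 1 F) (d + 1)
        (((Nat.card (SplT a b c) : ℤ) - if a ≠ 0 ∧ IsSquare a then 1 else 0 : ℤ) : ℝ) := by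
  have h2M : (2 : M) ≠ 0 := two_ne_zero
  obtain ⟨A, hft, hfr, hAk, aA, bA, cA, δA, u, haA, hbA, hcA, hδA, hD, hst, hsq, hasq⟩ :=
    exists_dat (k := ℚ) hM a b c hΔ
  have hAinj : Function.Injective (algebraMap A M) := IsFractionRing.injective A M
  -- the ring of the line
  let φ : A[X] →+* K := phA (M := M) A ω
  let _ : Algebra A[X] K := φ.toAlgebra
  have _ : IsFractionRing A[X] K := phA_frac A hω htop
  have hft' : Algebra.FiniteType ℤ A[X] := inferInstance
  have hft'' := Pool.Agent.R410.LW.ft_int _ hft'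
  -- the asymptotic value
  have h0 : Asy (fun F _ _ => sT wtc (gC aA bA cA) 1 F) (d + 1)
      ((Nat.card (SplT a b c) : ℝ) - if a ≠ 0 ∧ IsSquare a then 1 else 0) := by
    have t1 : ∀ i ∈ (Finset.univ : Finset (FT (b ^ 2 - 4 * a * c))),
        Asy (S1 (AdjoinRoot.mk (δA i) (star aA cA (δA i)))) d
          (if cnd a c i.1 then (1 : ℝ) else 0) := by
      intro i _
      have : Fact (Irreducible i.1) := ⟨((ft_mem hΔ _).1 i.2).1⟩
      have h3 := asy_cov hM hd (hD.monic i) (hδA i) (star aA cA (δA i)) (by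
        rw [hst]
        intro e1 e2
        exact hsq i ⟨e1, e2⟩)
      rw [hst] at h3
      unfold cnd
      convert h3
    have t2 := (Asy.sum Finset.univ _ _ t1).mulq
    rw [card_spl h2M hΔ] at t2
    have t3 : Asy (S2 aA) (d + 1) (if a ≠ 0 ∧ IsSquare a then (1 : ℝ) else 0) := by
      by_cases h : a ≠ 0 ∧ IsSquare a
      · rw [if_pos h]
        obtain ⟨s, hs1, hs2, hs3⟩ := hasq h.1 h.2
        rw [hs1]
        exact asy_sq A hM hd s hs2 hs3
      · rw [if_neg h]
        by_cases h4 : a = 0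
        · have h5 : aA = 0 := by
            apply Polynomial.map_injective _ hAinj
            rw [haA, h4, Polynomial.map_zero]
          rw [h5]
          exact asy_zero A (d + 1)
        · exact asy_nsq A hM hd (fun h5 => h ⟨h4, h5⟩) aA haA
    have t4 := t2.add t3.neg
    rw [← sub_eq_add_neg] at t4
    refine t4.congr 2 two_ne_zero fun F _ _ h2 => ?_
    have hF := char_of h2
    let _ := Fintype.ofFinite F
    have hfA : Finite (A →+* F) := inferInstance
    let _ := Fintype.ofFinite (A →+* F)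
    have hfX : Finite (A[X] →+* F) := Finite.of_equiv _ (polyEquiv (A := A) (F := F)).symm
    have hfi : ∀ i, Finite (AdjoinRoot (δA i) →+* F) := fun i =>
      Finite.of_equiv _ (adjEquiv (F := F) (δA i)).symm
    rw [hD.sum hF, sub_eq_add_neg]
  refine ⟨A[X], inferInstance, inferInstance, inferInstance, inferInstance, hft'', gC aA bA cA, ?_, ?_⟩
  · show (gC aA bA cA ()).map φ = _
    have hφC : φ.comp C = (algebraMap M K).comp (algebraMap A M) := by
      refine RingHom.ext fun z => ?_
      show phA (M := M) A ω (C z) = _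
      rw [phA_apply, Polynomial.map_C, aeval_C]
      rfl
    have hφX : φ X = ω := by
      show phA (M := M) A ω X = _
      rw [phA_apply, Polynomial.map_X, aeval_X]
    rw [gC_map, hφC, hφX, ← Polynomial.map_map, ← Polynomial.map_map, ← Polynomial.map_map, haA, hbA,
      hcA, fq_eq, up_def, up_def, up_def]
    ring
  · push_cast
    exact h0

end

end Pool.Agent.R410.EP
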