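import Pool.Agent.R410.EP.Sum
import Pool.Agent.R410.EP.Core
import Pool.Agent.R410.NG.Res

/-!
# The order of the Euler product of a family of hyperelliptic curves
-/

set_option autoImplicit false
set_option linter.all false
set_option maxHeartbeats 1000000

open Polynomial NumberField Filter

namespace Pool.Agent.R410.EP

open Pool.Agent.R410.NG (trc trc_bound trc_iso sT wtc)
open Pool.Agent.H126R3 (pair_unique Qc Qc_pos Qc_rpow summable_Q exists_F le_of_cast_zero)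
open Pool.Agent.TH958.An
open Pool.Agent.Y707.RX (cmb)
open Pool.Agent.W385.CP (CB Qc_zero)
open Pool.Agent.R410.BS (cF cF_le cB cB_nonneg cmb_eq)

theorem cF_iso {κ : Type} [Fintype κ] (L : κ → Type) [∀ j, Field (L j)] [∀ j, NumberField (L j)]
    (a : κ → ℝ) {F F' : Type} [Field F] [Field F'] (e : F ≃+* F') : cF L a F = cF L a F' := by
  unfold cF
  refine Finset.sum_congr rfl fun j _ => ?_
  congr 2
  exact Nat.card_congr
    { toFun := fun φ => (e : F →+* F').comp φ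
      invFun := fun φ => (e.symm : F' →+* F).comp φ
      left_inv := fun φ => RingHom.ext fun x => e.symm_apply_apply _
      right_inv := fun φ => RingHom.ext fun x => e.apply_symm_apply _ }

section
variable {R : Type} [CommRing R] [hR : Algebra.FiniteType ℤ R] {G : R[X]} {N : R}

/-- the sum over the chosen field -/
theorem tc_spec (G : R[X]) (N : R) (c : Nat.Primes × ℕ) : ∃ (F : Type) (_ : Field F) (_ : Fintype F),
    Fintype.card F = Qc c ∧ Tc G N c = -sT wtc (fun _ : Unit => G) N F := by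
  letI : Field (exists_F c).choose := (exists_F c).choose_spec.choose
  letI : Fintype (exists_F c).choose := (exists_F c).choose_spec.choose_spec.choose
  refine ⟨(exists_F c).choose, inferInstance, inferInstance,
    (exists_F c).choose_spec.choose_spec.choose_spec, ?_⟩
  unfold Tc sT wtc
  rw [← finsum_neg_distrib]
  refine finsum_congr fun φ => ?_
  rw [neg_neg]

/-- **The order of the Euler product.** -/
theorem euler_R (hG : G.Monic) (hodd : Odd G.natDegree) {e : ℕ} {C : ℝ} (hC0 : 0 ≤ C)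
    (hC : ∀ (F : Type) [Field F] [Finite F], (Nat.card (R →+* F) : ℝ) ≤ C * (Nat.card F : ℝ) ^ e)
    {κ : Type} [Fintype κ] (L : κ → Type) [∀ j, Field (L j)] [∀ j, NumberField (L j)] (a : κ → ℝ)
    {r : ℤ} (hr : ∑ j, a j = r) (M : ℕ) (hM : M ≠ 0) (K : ℝ) (hK : 0 ≤ K)
    (hT : ∀ (F : Type) [Field F] [Finite F], ((M : ℕ) : F) ≠ 0 →
      |sT wtc (fun _ : Unit => G) N F - cF L a F * (Nat.card F : ℝ) ^ e| * √(Nat.card F : ℝ) ≤
        K * (Nat.card F : ℝ) ^ e) :
    ∃ Φ : ℂ → ℂ,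
      (∀ s : ℂ, (e : ℝ) + 3 / 2 < s.re → HasProd (fun y : {y : Pt R // N ∉ y.asIdeal} =>
        Zy G y.1 ((qy y.1 : ℂ) ^ (-s))) (Φ s)) ∧
      DifferentiableOn ℂ Φ {s : ℂ | (e : ℝ) + 1 < s.re} ∧
      MeromorphicAt Φ ((e : ℂ) + 1) ∧ meromorphicOrderAt Φ ((e : ℂ) + 1) = r := by
  classical
  set B := cB L a with hB
  have hB0 : 0 ≤ B := cB_nonneg L a
  have hM0 : (0 : ℝ) ≤ M := Nat.cast_nonneg _
  have hM' : ((M : ℕ) : ℤ) ≠ 0 := by exact_mod_cast hM
  have hle : ∀ (c : Nat.Primes × ℕ) {F : Type} [Field F] [Fintype F],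
      Fintype.card F = Qc c → ((M : ℕ) : F) = 0 → ((c.1 : ℕ) : ℝ) ≤ M := by
    intro c F _ _ hF h0
    have h1 := le_of_cast_zero c.1 c.2 hF _ hM' (by exact_mod_cast h0)
    simpa using h1
  set D : ℝ := (G.natDegree : ℝ) with hD
  have hD0 : 0 ≤ D := Nat.cast_nonneg _
  -- good characteristics
  have hgood : ∀ (F : Type) [Field F] [Finite F], ((M : ℕ) : F) ≠ 0 →
      |sT wtc (fun _ : Unit => G) N F| ≤ (K + B) * (Nat.card F : ℝ) ^ e := by
    intro F _ _ hF
    have h1 := hT F hF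
    have hq1 : (1 : ℝ) ≤ Nat.card F := by exact_mod_cast Nat.card_pos
    have hs1 : 1 ≤ √(Nat.card F : ℝ) := Real.one_le_sqrt.2 hq1
    have hqe : (0 : ℝ) ≤ (Nat.card F : ℝ) ^ e := by positivity
    have h3 : |sT wtc (fun _ : Unit => G) N F - cF L a F * (Nat.card F : ℝ) ^ e| ≤
        K * (Nat.card F : ℝ) ^ e := (le_mul_of_one_le_right (abs_nonneg _) hs1).trans h1
    have h4 : |cF L a F * (Nat.card F : ℝ) ^ e| ≤ B * (Nat.card F : ℝ) ^ e := by
      rw [abs_mul, abs_of_nonneg hqe]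
      exact mul_le_mul_of_nonneg_right (cF_le L a F) hqe
    have h5 := abs_add_le (sT wtc (fun _ : Unit => G) N F - cF L a F * (Nat.card F : ℝ) ^ e)
      (cF L a F * (Nat.card F : ℝ) ^ e)
    rw [sub_add_cancel] at h5
    linarith
  set K' : ℝ := K + B + C * D + C * D * M with hK'
  have hK'0 : 0 ≤ K' := by positivity
  have hCDM : 0 ≤ C * D * M := by positivity
  have hCD : 0 ≤ C * D := by positivity
  -- the general bound
  have hsmall : ∀ c : Nat.Primes × ℕ, c.2 ≤ 1 → |Tc G N c| ≤ K' * (Qc c : ℝ) ^ e := by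
    intro c hc
    obtain ⟨F, _, _, hF, hTc⟩ := tc_spec G N c
    have hcard : (Nat.card F : ℝ) = (Qc c : ℝ) := by rw [Nat.card_eq_fintype_card, hF]
    have hQ : (0 : ℝ) < (Qc c : ℝ) := by exact_mod_cast Qc_pos c
    have hQe : (0 : ℝ) ≤ (Qc c : ℝ) ^ e := by positivity
    by_cases hMF : ((M : ℕ) : F) = 0
    · have h6 := hle c hF hMF
      have h7 := tc_bound (N := N) (c := c) hG hodd hC0 hC
      have hp1 : (1 : ℝ) ≤ ((c.1 : ℕ) : ℝ) := by exact_mod_cast c.1.2.pos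
      have h8 : √(Qc c : ℝ) ≤ ((c.1 : ℕ) : ℝ) := by
        rw [Real.sqrt_le_left (by linarith)]
        have : (Qc c : ℝ) = ((c.1 : ℕ) : ℝ) ^ (c.2 + 1) := by
          unfold Qc
          push_cast
          rfl
        rw [this]
        exact pow_le_pow_right₀ hp1 (by omega)
      rw [Real.rpow_add hQ, Real.rpow_natCast, ← Real.sqrt_eq_rpow] at h7
      calc |Tc G N c| ≤ C * D * ((Qc c : ℝ) ^ e * √(Qc c : ℝ)) := h7
        _ ≤ C * D * ((Qc c : ℝ) ^ e * M) := by
            refine mul_le_mul_of_nonneg_left ?_ hCD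
            exact mul_le_mul_of_nonneg_left (h8.trans h6) hQe
        _ = (C * D * M) * (Qc c : ℝ) ^ e := by ring
        _ ≤ K' * (Qc c : ℝ) ^ e := mul_le_mul_of_nonneg_right (by rw [hK']; linarith) hQe
    · have h6 := hgood F hMF
      rw [hcard] at h6
      rw [hTc, abs_neg]
      exact h6.trans (mul_le_mul_of_nonneg_right (by rw [hK']; linarith) hQe)
  let A : Nat.Primes × ℕ → ℂ := fun c => ((Tc G N c * ((c.2 + 1 : ℕ) : ℝ)⁻¹ : ℝ) : ℂ)
  have hA : ∀ c, ‖A c‖ ≤ |Tc G N c| := by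
    intro c
    show ‖((Tc G N c * ((c.2 + 1 : ℕ) : ℝ)⁻¹ : ℝ) : ℂ)‖ ≤ _
    rw [Complex.norm_real, Real.norm_eq_abs, abs_mul,
      abs_of_nonneg (a := ((c.2 + 1 : ℕ) : ℝ)⁻¹) (by positivity)]
    refine mul_le_of_le_one_right (abs_nonneg _) (inv_le_one_of_one_le₀ ?_)
    push_cast
    have : (0 : ℝ) ≤ c.2 := Nat.cast_nonneg _
    linarith
  have hCB : CB A e K' := by
    refine ⟨hK'0, ?_, ?_, ?_⟩
    · intro p
      refine (hA _).trans ((hsmall (p, 0) (Nat.zero_le _)).trans (le_of_eq ?_))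
      rw [Qc_zero]
    · intro p
      refine (hA _).trans ((hsmall (p, 1) le_rfl).trans (le_of_eq ?_))
      rw [Qc, Nat.cast_pow, ← pow_mul]
    · intro c
      refine (hA _).trans ((tc_bound (N := N) (c := c) hG hodd hC0 hC).trans ?_)
      exact mul_le_mul_of_nonneg_right (by rw [hK']; linarith) (by positivity)
  have hcof : ∀ᶠ p : Nat.Primes in Filter.cofinite, ((M : ℕ) : ZMod (p : ℕ)) ≠ 0 := by
    have hfin : {p : Nat.Primes | ((M : ℕ) : ZMod (p : ℕ)) = 0}.Finite := by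
      refine Set.Finite.of_injOn (f := fun p : Nat.Primes => (p : ℕ)) (t := (M.primeFactors : Set ℕ)) ?_
        ?_ (Finset.finite_toSet _)
      · intro p hp
        rw [Set.mem_ofPred_eq, ZMod.natCast_eq_zero_iff] at hp
        exact Nat.mem_primeFactors.2 ⟨p.2, hp, hM⟩
      · intro p _ q _ h
        exact Subtype.ext h
    rw [Filter.eventually_cofinite]
    simpa only [ne_eq, not_not] using hfin
  have b : ∀ᶠ p : Nat.Primes in Filter.cofinite,
      ‖A (p, 0) / (((p : ℕ) : ℂ) ^ e) + cmb L a p‖ ≤ K' * ((p : ℕ) : ℝ) ^ (-(1 / 2) : ℝ) := by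
    filter_upwards [hcof] with p hp
    have : Fact (p : ℕ).Prime := ⟨p.2⟩
    have hp0 : (0 : ℝ) < ((p : ℕ) : ℝ) := by exact_mod_cast p.2.pos
    obtain ⟨F, _, _, hF, hTc⟩ := tc_spec G N (p, 0)
    have hF' : Fintype.card F = (p : ℕ) := by rw [hF, Qc_zero]
    have hcard : (Nat.card F : ℝ) = ((p : ℕ) : ℝ) := by rw [Nat.card_eq_fintype_card, hF']
    let ε : F ≃+* ZMod (p : ℕ) := FiniteField.ringEquivOfCardEq (by rw [hF', ZMod.card])
    have hMF : ((M : ℕ) : F) ≠ 0 := by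
      intro h0
      apply hp
      have := congrArg ε h0
      rwa [map_natCast, map_zero] at this
    have h1 := hT F hMF
    rw [hcard] at h1
    have hA0 : A (p, 0) = ((Tc G N (p, 0) : ℝ) : ℂ) := by
      show ((Tc G N (p, 0) * ((0 + 1 : ℕ) : ℝ)⁻¹ : ℝ) : ℂ) = _
      norm_num
    rw [hA0, cmb_eq, ← cF_iso L a ε, hTc, ← Complex.ofReal_natCast, ← Complex.ofReal_pow,
      ← Complex.ofReal_div, ← Complex.ofReal_add, Complex.norm_real, Real.norm_eq_abs]
    have hpe : (0 : ℝ) < ((p : ℕ) : ℝ) ^ e := by positivity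
    have hs : 0 < √((p : ℕ) : ℝ) := Real.sqrt_pos.2 hp0
    have h3 : -sT wtc (fun _ : Unit => G) N F / ((p : ℕ) : ℝ) ^ e + cF L a F =
        -((sT wtc (fun _ : Unit => G) N F - cF L a F * ((p : ℕ) : ℝ) ^ e) / ((p : ℕ) : ℝ) ^ e) := by
      field_simp
      ring
    have h4 : ((p : ℕ) : ℝ) ^ (-(1 / 2) : ℝ) = (√((p : ℕ) : ℝ))⁻¹ := by
      rw [Real.sqrt_eq_rpow, ← Real.rpow_neg hp0.le]
    rw [h3, h4, abs_neg, abs_div, abs_of_pos hpe, div_le_iff₀ hpe, ← div_eq_mul_inv]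
    rw [div_mul_eq_mul_div, le_div_iff₀ hs]
    refine h1.trans (mul_le_mul_of_nonneg_right ?_ hpe.le)
    rw [hK']
    linarith
  obtain ⟨Φ, g1, g2, g3, g4⟩ := core3 hCB L a hr b
  refine ⟨Φ, ?_, g2, g3, g4⟩
  intro s hs
  rw [g1 s (by linarith)]
  exact hasProd_pts (N := N) hG hodd hC0 hC hs

end

end Pool.Agent.R410.EP
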