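import Pool.Agent.TH958.An.Pts

/-!
# Good reduction outside a closed subset
-/

set_option autoImplicit false
set_option linter.all false

open Polynomial

namespace Pool.Agent.R410.EP

section
variable {R K : Type} [CommRing R] [IsDomain R] [Field K] [CharZero K] [Algebra R K] [IsFractionRing R K]

theorem exists_good {G : R[X]} (hs : (G.map (algebraMap R K)).Separable) :
    ∃ N : R, N ≠ 0 ∧ ∀ y : MaximalSpectrum R, N ∉ y.asIdeal → (2 : R) ∉ y.asIdeal ∧
      (G.map (Ideal.Quotient.mk y.asIdeal)).Separable := by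
  have hinj : Function.Injective (algebraMap R K) := IsFractionRing.injective R K
  have hmi : Function.Injective (Polynomial.map (algebraMap R K)) := Polynomial.map_injective _ hinj
  obtain ⟨u, v, huv⟩ := hs
  obtain ⟨r1, hr1⟩ := IsLocalization.integerNormalization_map_to_map (nonZeroDivisors R) u
  obtain ⟨r2, hr2⟩ := IsLocalization.integerNormalization_map_to_map (nonZeroDivisors R) v
  set U := IsLocalization.integerNormalization (nonZeroDivisors R) u
  set V := IsLocalization.integerNormalization (nonZeroDivisors R) v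
  have h10 : (r1 : R) ≠ 0 := nonZeroDivisors.ne_zero r1.2
  have h20 : (r2 : R) ≠ 0 := nonZeroDivisors.ne_zero r2.2
  have h1 : U.map (algebraMap R K) = C (algebraMap R K r1) * u := by
    rw [hr1, ← smul_eq_C_mul]
    exact (algebraMap_smul K (r1 : R) u).symm
  have h2 : V.map (algebraMap R K) = C (algebraMap R K r2) * v := by
    rw [hr2, ← smul_eq_C_mul]
    exact (algebraMap_smul K (r2 : R) v).symm
  have key : (C (r2 : R) * U) * G + (C (r1 : R) * V) * derivative G = C ((r1 : R) * r2) := by
    apply hmi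
    rw [Polynomial.map_add, Polynomial.map_mul, Polynomial.map_mul, Polynomial.map_mul,
      Polynomial.map_mul, Polynomial.map_C, Polynomial.map_C, Polynomial.map_C, h1, h2, map_mul, C_mul,
      ← derivative_map]
    linear_combination C (algebraMap R K r1) * C (algebraMap R K r2) * huv
  have h2R : (2 : R) ≠ 0 := by
    intro h
    have := congrArg (algebraMap R K) h
    rw [map_ofNat, map_zero] at this
    exact two_ne_zero this
  refine ⟨2 * ((r1 : R) * r2), mul_ne_zero h2R (mul_ne_zero h10 h20), ?_⟩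
  intro y hy
  refine ⟨fun h => hy (y.asIdeal.mul_mem_right _ h), ?_⟩
  have hr : (r1 : R) * r2 ∉ y.asIdeal := fun h => hy (y.asIdeal.mul_mem_left _ h)
  letI : Field (R ⧸ y.asIdeal) := Ideal.Quotient.field y.asIdeal
  have hne : Ideal.Quotient.mk y.asIdeal ((r1 : R) * r2) ≠ 0 := by
    rw [Ne, Ideal.Quotient.eq_zero_iff_mem]
    exact hr
  have key2 : (C (r2 : R) * U).map (Ideal.Quotient.mk y.asIdeal) * G.map (Ideal.Quotient.mk y.asIdeal) +
      (C (r1 : R) * V).map (Ideal.Quotient.mk y.asIdeal) *
        derivative (G.map (Ideal.Quotient.mk y.asIdeal)) =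
      C (Ideal.Quotient.mk y.asIdeal ((r1 : R) * r2)) := by
    rw [derivative_map, ← Polynomial.map_mul, ← Polynomial.map_mul, ← Polynomial.map_add, key,
      Polynomial.map_C]
  obtain ⟨z, hz⟩ : ∃ z, z * Ideal.Quotient.mk y.asIdeal ((r1 : R) * r2) = 1 :=
    ⟨_, inv_mul_cancel₀ hne⟩
  refine ⟨C z * (C (r2 : R) * U).map (Ideal.Quotient.mk y.asIdeal),
    C z * (C (r1 : R) * V).map (Ideal.Quotient.mk y.asIdeal), ?_⟩
  have h3 : (C z * C (Ideal.Quotient.mk y.asIdeal ((r1 : R) * r2)) : (R ⧸ y.asIdeal)[X]) = 1 := by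
    rw [← C_mul, hz, C_1]
  rw [← h3, ← key2]
  ring

end

end Pool.Agent.R410.EP
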