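import Pool.Agent.TH958.An.Pts

/-!
# Good reduction of surfaces outside a closed subset
-/

set_option autoImplicit false
set_option linter.all false

open Polynomial

namespace Pool.Agent.R410.EP

section
variable {R : Type} [CommRing R]

/-- the derivative with respect to the inner variable -/
noncomputable def dT (P : R[X][X]) : R[X][X] :=
  ∑ j ∈ P.support, C (derivative (P.coeff j)) * X ^ j

theorem dT_coeff (P : R[X][X]) (i : ℕ) : (dT P).coeff i = derivative (P.coeff i) := by
  classical
  unfold dT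
  rw [finset_sum_coeff]
  simp only [coeff_C_mul, coeff_X_pow, mul_ite, mul_one, mul_zero, Finset.sum_ite_eq]
  split_ifs with h
  · rfl
  · rw [notMem_support_iff.1 h, derivative_zero]

theorem dT_map {S : Type} [CommRing S] (f : R →+* S) (P : R[X][X]) :
    (dT P).map (mapRingHom f) = dT (P.map (mapRingHom f)) := by
  ext i : 1
  rw [coeff_map, dT_coeff, dT_coeff, coeff_map, coe_mapRingHom, derivative_map]

/-- the chart at infinity -/
noncomputable def chI (g n : ℕ) (P : R[X][X]) : R[X][X] :=
  ∑ j ∈ Finset.range (2 * g + 2), C (reflect (2 * n * (2 * g + 1 - j)) (P.coeff j)) * X ^ j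

theorem chI_map {S : Type} [CommRing S] (f : R →+* S) (g n : ℕ) (P : R[X][X]) :
    (chI g n P).map (mapRingHom f) = chI g n (P.map (mapRingHom f)) := by
  unfold chI
  rw [Polynomial.map_sum]
  refine Finset.sum_congr rfl fun j _ => ?_
  rw [Polynomial.map_mul, Polynomial.map_C, Polynomial.map_pow, Polynomial.map_X, coeff_map,
    coe_mapRingHom, reflect_map]

theorem comb_map {S : Type} [CommRing S] (f : R →+* S) (u v z P : R[X][X]) :
    (u * P + v * derivative P + z * dT P).map (mapRingHom f) =
      u.map (mapRingHom f) * P.map (mapRingHom f) + v.map (mapRingHom f) *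
        derivative (P.map (mapRingHom f)) + z.map (mapRingHom f) * dT (P.map (mapRingHom f)) := by
  rw [Polynomial.map_add, Polynomial.map_add, Polynomial.map_mul, Polynomial.map_mul,
    Polynomial.map_mul, dT_map, ← derivative_map]

theorem cc_map {S : Type} [CommRing S] (f : R →+* S) (r : R) :
    (C (C r) : R[X][X]).map (mapRingHom f) = C (C (f r)) := by
  rw [Polynomial.map_C, coe_mapRingHom, Polynomial.map_C]

/-- the smoothness of `y² = P(t, x)`, if `2` is invertible -/
def SmC (P : R[X][X]) : Prop := ∃ u v z : R[X][X], u * P + v * derivative P + z * dT P = 1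

end

section
variable {R K : Type} [CommRing R] [IsDomain R] [Field K] [CharZero K] [Algebra R K] [IsFractionRing R K]

theorem clear_den (u : K[X][X]) : ∃ (r : R) (U : R[X][X]), r ≠ 0 ∧
    U.map (mapRingHom (algebraMap R K)) = C (C (algebraMap R K r)) * u := by
  classical
  induction u using Polynomial.induction_on' with
  | add p q hp hq =>
    obtain ⟨r, U, hr, hU⟩ := hp
    obtain ⟨r', U', hr', hU'⟩ := hq
    refine ⟨r * r', C (C r') * U + C (C r) * U', mul_ne_zero hr hr', ?_⟩
    rw [Polynomial.map_add, Polynomial.map_mul, Polynomial.map_mul, Polynomial.map_C,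
      Polynomial.map_C, coe_mapRingHom, Polynomial.map_C, Polynomial.map_C, hU, hU', map_mul, C_mul,
      C_mul]
    ring
  | monomial n a =>
    obtain ⟨r, hr⟩ := IsLocalization.integerNormalization_map_to_map (nonZeroDivisors R) a
    set A := IsLocalization.integerNormalization (nonZeroDivisors R) a
    refine ⟨r, monomial n A, nonZeroDivisors.ne_zero r.2, ?_⟩
    rw [Polynomial.map_monomial, coe_mapRingHom, hr, C_mul_monomial]
    congr 1
    rw [← smul_eq_C_mul]
    exact (algebraMap_smul K (r : R) a).symm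

theorem good_chart {P : R[X][X]} (hs : SmC (P.map (mapRingHom (algebraMap R K)))) :
    ∃ N : R, N ≠ 0 ∧ ∀ y : MaximalSpectrum R, N ∉ y.asIdeal →
      SmC (P.map (mapRingHom (Ideal.Quotient.mk y.asIdeal))) := by
  have hinj : Function.Injective (algebraMap R K) := IsFractionRing.injective R K
  have hmi1 : Function.Injective (mapRingHom (algebraMap R K)) := Polynomial.map_injective _ hinj
  have hmi : Function.Injective (Polynomial.map (mapRingHom (algebraMap R K))) :=
    Polynomial.map_injective _ hmi1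
  obtain ⟨u, v, z, huv⟩ := hs
  obtain ⟨r1, U, h10, h1⟩ := clear_den (R := R) u
  obtain ⟨r2, V, h20, h2⟩ := clear_den (R := R) v
  obtain ⟨r3, Z, h30, h3⟩ := clear_den (R := R) z
  have key : (C (C (r2 * r3)) * U) * P + (C (C (r1 * r3)) * V) * derivative P +
      (C (C (r1 * r2)) * Z) * dT P = C (C (r1 * r2 * r3)) := by
    apply hmi
    rw [comb_map, Polynomial.map_mul, Polynomial.map_mul, Polynomial.map_mul, cc_map, cc_map, cc_map,
      cc_map, h1, h2, h3]
    simp only [map_mul]
    linear_combination C (C (algebraMap R K r1)) * C (C (algebraMap R K r2)) *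
      C (C (algebraMap R K r3)) * huv
  refine ⟨r1 * r2 * r3, mul_ne_zero (mul_ne_zero h10 h20) h30, ?_⟩
  intro y hy
  letI : Field (R ⧸ y.asIdeal) := Ideal.Quotient.field y.asIdeal
  have hne : Ideal.Quotient.mk y.asIdeal (r1 * r2 * r3) ≠ 0 := by
    rw [Ne, Ideal.Quotient.eq_zero_iff_mem]
    exact hy
  have key2 := congrArg (Polynomial.map (mapRingHom (Ideal.Quotient.mk y.asIdeal))) key
  rw [comb_map, cc_map] at key2
  obtain ⟨t, ht⟩ : ∃ t, t * Ideal.Quotient.mk y.asIdeal (r1 * r2 * r3) = 1 :=
    ⟨_, inv_mul_cancel₀ hne⟩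
  have h4 : (C (C t) * C (C (Ideal.Quotient.mk y.asIdeal (r1 * r2 * r3))) : (R ⧸ y.asIdeal)[X][X]) =
      1 := by
    rw [← C_mul, ← C_mul, ht, C_1, C_1]
  refine ⟨C (C t) * (C (C (r2 * r3)) * U).map (mapRingHom (Ideal.Quotient.mk y.asIdeal)),
    C (C t) * (C (C (r1 * r3)) * V).map (mapRingHom (Ideal.Quotient.mk y.asIdeal)),
    C (C t) * (C (C (r1 * r2)) * Z).map (mapRingHom (Ideal.Quotient.mk y.asIdeal)), ?_⟩
  rw [← h4, ← key2]
  ring

/-- **Good reduction.** -/
theorem exists_goodS {g n : ℕ} {P : R[X][X]} (hs : SmC (P.map (mapRingHom (algebraMap R K))))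
    (hs' : SmC (chI g n (P.map (mapRingHom (algebraMap R K))))) :
    ∃ N : R, N ≠ 0 ∧ ∀ y : MaximalSpectrum R, N ∉ y.asIdeal → (2 : R) ∉ y.asIdeal ∧
      SmC (P.map (mapRingHom (Ideal.Quotient.mk y.asIdeal))) ∧
      SmC (chI g n (P.map (mapRingHom (Ideal.Quotient.mk y.asIdeal)))) := by
  obtain ⟨N1, h1, g1⟩ := good_chart (K := K) hs
  rw [← chI_map] at hs'
  obtain ⟨N2, h2, g2⟩ := good_chart (K := K) hs'
  have h2R : (2 : R) ≠ 0 := by
    intro h
    have := congrArg (algebraMap R K) h
    rw [map_ofNat, map_zero] at this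
    exact two_ne_zero this
  refine ⟨2 * (N1 * N2), mul_ne_zero h2R (mul_ne_zero h1 h2), fun y hy => ⟨?_, ?_, ?_⟩⟩
  · exact fun h => hy (y.asIdeal.mul_mem_right _ h)
  · exact g1 y fun h => hy (y.asIdeal.mul_mem_left _ (y.asIdeal.mul_mem_right _ h))
  · rw [← chI_map]
    exact g2 y fun h => hy (y.asIdeal.mul_mem_left _ (y.asIdeal.mul_mem_left _ h))

end

end Pool.Agent.R410.EP
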