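import Pool.Agent.R410.EP.Loc
import Pool.Agent.H126R3.Sums

/-!
# The sum over the closed points and the sum over the prime powers
-/

set_option autoImplicit false
set_option linter.all false
set_option maxHeartbeats 1000000

open Polynomial

namespace Pool.Agent.R410.EP

open Pool.Agent.R410.NG (trc trc_bound trc_iso)
open Pool.Agent.H126R3 (pair_unique Qc Qc_pos Qc_rpow summable_Q exists_F)
open Pool.Agent.TH958.An

section
variable {R : Type} [CommRing R] [hR : Algebra.FiniteType ℤ R] (G : R[X]) (N : R)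

/-- the trace for the extensions of the residue field -/
noncomputable def trY (y : Pt R) (n : ℕ) : ℝ := trn (Res y) (G.map (Ideal.Quotient.mk y.asIdeal)) n

omit hR in
theorem trY_eq {F : Type} [Field F] [Finite F] (φ : R →+* F) (y : Pt R) (h : ptOf φ = y) :
    trY G y (Nat.card F) = trc F (G.map φ) := by
  subst h
  let ψ : Res (ptOf φ) →+* F := fiberEquiv (F := F) (ptOf φ) ⟨φ, rfl⟩
  have hψ : ψ.comp (Ideal.Quotient.mk (ptOf φ).asIdeal) = φ := by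
    ext x
    rfl
  unfold trY
  rw [trn_eq ψ, Polynomial.map_map, hψ]

/-- the closed points with a point with values in the field with `Qc c` elements -/
abbrev Yc (c : Nat.Primes × ℕ) : Type :=
  {y : Pt R // N ∉ y.asIdeal ∧ (pk y).1 = c.1 ∧ ((pk y).2 + 1) ∣ (c.2 + 1)}

variable {N} {c : Nat.Primes × ℕ}

theorem card_fib {F : Type} [Field F] [Finite F] (hF : Nat.card F = Qc c) (y : Yc N c) :
    Nat.card {φ : R →+* F // ptOf φ = y.1} = (pk y.1).2 + 1 := by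
  have hp : Fact ((c.1 : ℕ)).Prime := ⟨c.1.2⟩
  rw [Nat.card_congr (fiberEquiv (F := F) y.1)]
  refine card_emb (p := (c.1 : ℕ)) (n := c.2 + 1) ?_ hF (Nat.succ_ne_zero _) (Nat.succ_ne_zero _) y.2.2.2
  have h := qy_eq y.1
  rw [y.2.2.1] at h
  exact h

/-- the points with values in the field with `Qc c` elements -/
noncomputable def homEq {F : Type} [Field F] [Finite F] (hF : Nat.card F = Qc c) :
    {φ : R →+* F // φ N ≠ 0} ≃ Σ y : Yc N c, {φ : R →+* F // ptOf φ = y.1} where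
  toFun φ := ⟨⟨ptOf φ.1, fun h => φ.2 ((mem_ptOf φ.1 N).1 h), by
    have := Fintype.ofFinite F
    exact pk_ptOf F φ.1 c.1 c.2 (by rw [← Nat.card_eq_fintype_card]; exact hF)⟩, ⟨φ.1, rfl⟩⟩
  invFun w := ⟨w.2.1, fun h => w.1.2.1 (by
    rw [← w.2.2, mem_ptOf]
    exact h)⟩
  left_inv φ := rfl
  right_inv w := by
    have gen : ∀ (y : Pt R) (hy : N ∉ y.asIdeal ∧ (pk y).1 = c.1 ∧ ((pk y).2 + 1) ∣ (c.2 + 1))
        (φ : R →+* F) (hφ : ptOf φ = y)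
        (h1 : N ∉ (ptOf φ).asIdeal ∧ (pk (ptOf φ)).1 = c.1 ∧ ((pk (ptOf φ)).2 + 1) ∣ (c.2 + 1)),
        (⟨⟨ptOf φ, h1⟩, ⟨φ, rfl⟩⟩ : Σ y : Yc N c, {φ : R →+* F // ptOf φ = y.1}) =
          ⟨⟨y, hy⟩, ⟨φ, hφ⟩⟩ := by
      intro y hy φ hφ h1
      subst hφ
      rfl
    exact gen w.1.1 w.1.2 w.2.1 w.2.2 _

theorem finite_Yc : Finite (Yc N c) := by
  obtain ⟨F, _, _, hF⟩ := exists_F c
  have hF' : Nat.card F = Qc c := by rw [Nat.card_eq_fintype_card]; exact hF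
  have hs : Function.Surjective fun φ : {φ : R →+* F // φ N ≠ 0} => (homEq hF' φ).1 := by
    intro y
    have h1 : 0 < Nat.card {φ : R →+* F // ptOf φ = y.1} := by
      rw [card_fib hF' y]
      omega
    obtain ⟨φ⟩ := (Nat.card_pos_iff.1 h1).1
    refine ⟨(homEq hF').symm ⟨y, φ⟩, ?_⟩
    show (homEq hF' ((homEq hF').symm ⟨y, φ⟩)).1 = y
    rw [Equiv.apply_symm_apply]
  exact Finite.of_surjective _ hs

/-- the sum over the points and the sum over the closed points -/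
theorem sum_Yc {F : Type} [Field F] [Finite F] (hF : Nat.card F = Qc c) [Fintype (Yc N c)]
    (w : Pt R → ℝ) : ∑ᶠ φ : {φ : R →+* F // φ N ≠ 0}, w (ptOf φ.1) =
      ∑ y : Yc N c, (((pk y.1).2 + 1 : ℕ) : ℝ) * w y.1 := by
  classical
  let _ : ∀ y : Yc N c, Fintype {φ : R →+* F // ptOf φ = y.1} := fun y => Fintype.ofFinite _
  let _ : Fintype {φ : R →+* F // φ N ≠ 0} := Fintype.ofFinite _
  rw [finsum_eq_sum_of_fintype, Fintype.sum_equiv (homEq (N := N) hF) (fun φ => w (ptOf φ.1))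
    (fun z => w z.1.1) (fun φ => rfl), Fintype.sum_sigma]
  refine Finset.sum_congr rfl fun y _ => ?_
  show ∑ _z : {φ : R →+* F // ptOf φ = y.1}, w y.1 = _
  rw [Finset.sum_const, Finset.card_univ, ← Nat.card_eq_fintype_card, card_fib hF y, nsmul_eq_mul]

/-- the pair of the power of the norm -/
noncomputable def pi (N : R) (x : {y : Pt R // N ∉ y.asIdeal} × ℕ) : Nat.Primes × ℕ :=
  ((pk x.1.1).1, ((pk x.1.1).2 + 1) * (x.2 + 1) - 1)

theorem pi_eq (x : {y : Pt R // N ∉ y.asIdeal} × ℕ) : pi N x = c ↔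
    (pk x.1.1).1 = c.1 ∧ ((pk x.1.1).2 + 1) * (x.2 + 1) = c.2 + 1 := by
  have h0 : 0 < ((pk x.1.1).2 + 1) * (x.2 + 1) := by positivity
  unfold pi
  rw [Prod.ext_iff]
  constructor
  · rintro ⟨h1, h2⟩
    refine ⟨h1, ?_⟩
    simp only at h2
    omega
  · rintro ⟨h1, h2⟩
    refine ⟨h1, ?_⟩
    simp only
    omega

theorem pi_qy (x : {y : Pt R // N ∉ y.asIdeal} × ℕ) (h : pi N x = c) :
    qy x.1.1 ^ (x.2 + 1) = Qc c := by
  obtain ⟨h1, h2⟩ := (pi_eq x).1 h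
  rw [qy_eq, ← pow_mul, h2, h1]
  rfl

/-- the fibre -/
noncomputable def fibEq (N : R) (c : Nat.Primes × ℕ) :
    {x : {y : Pt R // N ∉ y.asIdeal} × ℕ // pi N x = c} ≃ Yc N c where
  toFun x := ⟨x.1.1.1, x.1.1.2, ((pi_eq x.1).1 x.2).1, Dvd.intro _ ((pi_eq x.1).1 x.2).2⟩
  invFun y := ⟨(⟨y.1, y.2.1⟩, (c.2 + 1) / ((pk y.1).2 + 1) - 1), (pi_eq _).2 ⟨y.2.2.1, by
    have h1 : 0 < (c.2 + 1) / ((pk y.1).2 + 1) :=
      Nat.div_pos (Nat.le_of_dvd (Nat.succ_pos _) y.2.2.2) (Nat.succ_pos _)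
    show ((pk y.1).2 + 1) * ((c.2 + 1) / ((pk y.1).2 + 1) - 1 + 1) = c.2 + 1
    rw [Nat.sub_add_cancel h1]
    exact Nat.mul_div_cancel' y.2.2.2⟩⟩
  left_inv x := by
    apply Subtype.ext
    refine Prod.ext rfl ?_
    show (c.2 + 1) / ((pk x.1.1.1).2 + 1) - 1 = x.1.2
    rw [← ((pi_eq x.1).1 x.2).2, Nat.mul_div_cancel_left _ (Nat.succ_pos _)]
    rfl
  right_inv y := rfl

variable (N) in
/-- the terms -/
noncomputable def tm (s : ℂ) (x : {y : Pt R // N ∉ y.asIdeal} × ℕ) : ℂ :=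
  ((trY G x.1.1 (qy x.1.1 ^ (x.2 + 1)) / ((x.2 + 1 : ℕ) : ℝ) : ℝ) : ℂ) *
    ((qy x.1.1 ^ (x.2 + 1) : ℕ) : ℂ) ^ (-s)

theorem tm_fib (s : ℂ) (x : {x : {y : Pt R // N ∉ y.asIdeal} × ℕ // pi N x = c}) :
    tm G N s x.1 = (((((pk (fibEq N c x).1).2 + 1 : ℕ) : ℝ) * trY G (fibEq N c x).1 (Qc c) : ℝ) : ℂ) *
      ((((c.2 + 1 : ℕ) : ℝ)⁻¹ : ℝ) * ((Qc c : ℕ) : ℂ) ^ (-s)) := by
  unfold tm
  rw [pi_qy x.1 x.2]
  have h1 : fibEq N c x = ⟨x.1.1.1, x.1.1.2, ((pi_eq x.1).1 x.2).1, Dvd.intro _ ((pi_eq x.1).1 x.2).2⟩ :=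
    rfl
  rw [h1, ← mul_assoc, ← Complex.ofReal_mul]
  congr 2
  have h2 := ((pi_eq x.1).1 x.2).2
  have h3 : (((pk x.1.1.1).2 + 1 : ℕ) : ℝ) * ((x.1.2 + 1 : ℕ) : ℝ) = ((c.2 + 1 : ℕ) : ℝ) := by
    rw [← h2]
    push_cast
    ring
  rw [← h3]
  have h4 : (((pk x.1.1.1).2 + 1 : ℕ) : ℝ) ≠ 0 := by positivity
  have h5 : ((x.1.2 + 1 : ℕ) : ℝ) ≠ 0 := by positivity
  field_simp

/-- the sum over all points with values in the field with `Qc c` elements -/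
noncomputable def Tc (G : R[X]) (N : R) (c : Nat.Primes × ℕ) : ℝ :=
  letI : Field (exists_F c).choose := (exists_F c).choose_spec.choose
  ∑ᶠ φ : {φ : R →+* (exists_F c).choose // φ N ≠ 0}, trc (exists_F c).choose (G.map φ.1)

theorem tc_eq [Fintype (Yc N c)] : Tc G N c =
    ∑ y : Yc N c, (((pk y.1).2 + 1 : ℕ) : ℝ) * trY G y.1 (Qc c) := by
  letI : Field (exists_F c).choose := (exists_F c).choose_spec.choose
  letI : Fintype (exists_F c).choose := (exists_F c).choose_spec.choose_spec.choose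
  have hF : Nat.card (exists_F c).choose = Qc c := by
    rw [Nat.card_eq_fintype_card]
    exact (exists_F c).choose_spec.choose_spec.choose_spec
  rw [← sum_Yc hF (fun y => trY G y (Qc c))]
  unfold Tc
  refine finsum_congr fun φ => ?_
  rw [← hF, trY_eq G φ.1 _ rfl]

variable {G}

/-- the bound for the traces -/
theorem trY_bound (hG : G.Monic) (hodd : Odd G.natDegree) (y : Yc N c) :
    |trY G y.1 (Qc c)| ≤ G.natDegree * √(Qc c : ℝ) := by
  obtain ⟨F, _, _, hF⟩ := exists_F c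
  have hF' : Nat.card F = Qc c := by rw [Nat.card_eq_fintype_card]; exact hF
  have h1 : 0 < Nat.card {φ : R →+* F // ptOf φ = y.1} := by
    rw [card_fib hF' y]
    omega
  obtain ⟨φ⟩ := (Nat.card_pos_iff.1 h1).1
  rw [← hF', trY_eq G φ.1 y.1 φ.2]
  exact trc_bound (hG.map φ.1) (hG.natDegree_map φ.1) hodd

/-- the bound for the sums -/
theorem fib_norm (hG : G.Monic) (hodd : Odd G.natDegree) {e : ℕ} {C : ℝ} (hC0 : 0 ≤ C)
    (hC : ∀ (F : Type) [Field F] [Finite F], (Nat.card (R →+* F) : ℝ) ≤ C * (Nat.card F : ℝ) ^ e)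
    [Fintype (Yc N c)] :
    ∑ y : Yc N c, (((pk y.1).2 + 1 : ℕ) : ℝ) * |trY G y.1 (Qc c)| ≤
      C * G.natDegree * (Qc c : ℝ) ^ ((e : ℝ) + 1 / 2) := by
  obtain ⟨F, _, _, hF⟩ := exists_F c
  have hF' : Nat.card F = Qc c := by rw [Nat.card_eq_fintype_card]; exact hF
  have hQ : (0 : ℝ) < (Qc c : ℝ) := by exact_mod_cast Qc_pos c
  have h1 : ∑ y : Yc N c, (((pk y.1).2 + 1 : ℕ) : ℝ) * |trY G y.1 (Qc c)| ≤
      ∑ y : Yc N c, (((pk y.1).2 + 1 : ℕ) : ℝ) * (G.natDegree * √(Qc c : ℝ)) :=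
    Finset.sum_le_sum fun y _ => mul_le_mul_of_nonneg_left (trY_bound hG hodd y) (Nat.cast_nonneg _)
  refine h1.trans ?_
  rw [← sum_Yc hF' (fun _ => G.natDegree * √(Qc c : ℝ))]
  let _ : Fintype {φ : R →+* F // φ N ≠ 0} := Fintype.ofFinite _
  rw [finsum_eq_sum_of_fintype, Finset.sum_const, nsmul_eq_mul, Finset.card_univ,
    ← Nat.card_eq_fintype_card]
  have h2 : (Nat.card {φ : R →+* F // φ N ≠ 0} : ℝ) ≤ C * (Qc c : ℝ) ^ e := by
    refine le_trans ?_ ((hC F).trans (le_of_eq (by rw [hF'])))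
    exact_mod_cast Nat.card_le_card_of_injective _ Subtype.val_injective
  calc _ ≤ C * (Qc c : ℝ) ^ e * (G.natDegree * √(Qc c : ℝ)) :=
        mul_le_mul_of_nonneg_right h2 (by positivity)
    _ = C * G.natDegree * (Qc c : ℝ) ^ ((e : ℝ) + 1 / 2) := by
        rw [Real.rpow_add hQ, Real.rpow_natCast, ← Real.sqrt_eq_rpow]
        ring

theorem tc_bound (hG : G.Monic) (hodd : Odd G.natDegree) {e : ℕ} {C : ℝ} (hC0 : 0 ≤ C)
    (hC : ∀ (F : Type) [Field F] [Finite F], (Nat.card (R →+* F) : ℝ) ≤ C * (Nat.card F : ℝ) ^ e) :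
    |Tc G N c| ≤ C * G.natDegree * (Qc c : ℝ) ^ ((e : ℝ) + 1 / 2) := by
  have := finite_Yc (N := N) (c := c)
  let _ := Fintype.ofFinite (Yc N c)
  rw [tc_eq]
  refine (Finset.abs_sum_le_sum_abs _ _).trans (le_trans (le_of_eq ?_)
    (fib_norm (N := N) (c := c) hG hodd hC0 hC))
  refine Finset.sum_congr rfl fun y _ => ?_
  rw [abs_mul, Nat.abs_cast]

/-- **The sum over the closed points.** -/
theorem hasSum_pts (hG : G.Monic) (hodd : Odd G.natDegree) {e : ℕ} {C : ℝ} (hC0 : 0 ≤ C)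
    (hC : ∀ (F : Type) [Field F] [Finite F], (Nat.card (R →+* F) : ℝ) ≤ C * (Nat.card F : ℝ) ^ e)
    {s : ℂ} (hs : (e : ℝ) + 3 / 2 < s.re) :
    HasSum (fun y : {y : Pt R // N ∉ y.asIdeal} => ∑' j : ℕ, tm G N s (y, j))
      (∑' c : Nat.Primes × ℕ, ((Tc G N c * ((c.2 + 1 : ℕ) : ℝ)⁻¹ : ℝ) : ℂ) * ((Qc c : ℕ) : ℂ) ^ (-s)) := by
  classical
  have hfin : ∀ c : Nat.Primes × ℕ, Finite (Yc N c) := fun c => finite_Yc
  let _ : ∀ c : Nat.Primes × ℕ, Fintype (Yc N c) := fun c => Fintype.ofFinite _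
  let _ : ∀ c : Nat.Primes × ℕ, Fintype {x : {y : Pt R // N ∉ y.asIdeal} × ℕ // pi N x = c} :=
    fun c => Fintype.ofEquiv _ (fibEq N c).symm
  -- summability
  have hn : ∀ (c : Nat.Primes × ℕ) (x : {x : {y : Pt R // N ∉ y.asIdeal} × ℕ // pi N x = c}),
      ‖tm G N s x.1‖ = ((((pk (fibEq N c x).1).2 + 1 : ℕ) : ℝ) * |trY G (fibEq N c x).1 (Qc c)|) *
        (((c.2 + 1 : ℕ) : ℝ)⁻¹ * (Qc c : ℝ) ^ (-s.re)) := by
    intro c x
    rw [tm_fib, norm_mul, norm_mul, Complex.norm_real, Complex.norm_real,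
      Complex.norm_natCast_cpow_of_pos (Qc_pos c), Complex.neg_re, Real.norm_eq_abs, Real.norm_eq_abs,
      abs_mul, Nat.abs_cast, abs_of_nonneg (a := ((c.2 + 1 : ℕ) : ℝ)⁻¹) (by positivity)]
  have hsum : Summable (fun x => ‖tm G N s x‖) := by
    rw [← (Equiv.sigmaFiberEquiv (pi N)).summable_iff]
    refine (summable_sigma_of_nonneg (f := (fun x => ‖tm G N s x‖) ∘ (Equiv.sigmaFiberEquiv (pi N)))
      (fun x => norm_nonneg _)).2 ⟨fun c => ?_, ?_⟩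
    · exact (hasSum_fintype _).summable
    · have h1 := (summable_Q (s.re - e - 1 / 2) (by linarith) 0 (by push_cast; linarith)).mul_left
        (C * G.natDegree)
      refine Summable.of_nonneg_of_le (fun c => tsum_nonneg fun x => norm_nonneg _) (fun c => ?_) h1
      rw [tsum_fintype]
      have h2 : ∀ x : {x : {y : Pt R // N ∉ y.asIdeal} × ℕ // pi N x = c},
          ((fun x => ‖tm G N s x‖) ∘ (Equiv.sigmaFiberEquiv (pi N))) ⟨c, x⟩ =
          ((((pk (fibEq N c x).1).2 + 1 : ℕ) : ℝ) * |trY G (fibEq N c x).1 (Qc c)|) *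
            (((c.2 + 1 : ℕ) : ℝ)⁻¹ * (Qc c : ℝ) ^ (-s.re)) := fun x => hn c x
      rw [Finset.sum_congr rfl fun x _ => h2 x, ← Finset.sum_mul]
      rw [(fibEq N c).sum_comp (fun y => (((pk y.1).2 + 1 : ℕ) : ℝ) * |trY G y.1 (Qc c)|)]
      have h3 := fib_norm (N := N) (c := c) hG hodd hC0 hC
      have hQ : (0 : ℝ) < (Qc c : ℝ) := by exact_mod_cast Qc_pos c
      have h4 : ((c.2 + 1 : ℕ) : ℝ)⁻¹ ≤ 1 := inv_le_one_of_one_le₀ (by
        push_cast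
        have : (0 : ℝ) ≤ c.2 := Nat.cast_nonneg _
        linarith)
      have hnn : 0 ≤ ∑ y : Yc N c, (((pk y.1).2 + 1 : ℕ) : ℝ) * |trY G y.1 (Qc c)| :=
        Finset.sum_nonneg fun y _ => mul_nonneg (Nat.cast_nonneg _) (abs_nonneg _)
      rw [if_pos (Nat.zero_le _)]
      calc _ ≤ (C * G.natDegree * (Qc c : ℝ) ^ ((e : ℝ) + 1 / 2)) * (1 * (Qc c : ℝ) ^ (-s.re)) := by
            refine mul_le_mul h3 (mul_le_mul_of_nonneg_right h4 (by positivity)) (by positivity)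
              (by positivity)
        _ = C * G.natDegree * (Qc c : ℝ) ^ (-(s.re - e - 1 / 2)) := by
            rw [one_mul, mul_assoc, ← Real.rpow_add hQ]
            congr 2
            ring
  have hS : Summable (tm G N s) := hsum.of_norm
  obtain ⟨S, hS⟩ := hS
  -- the fibres
  have h1 : HasSum ((tm G N s) ∘ (Equiv.sigmaFiberEquiv (pi N))) S :=
    (Equiv.sigmaFiberEquiv (pi N)).hasSum_iff.2 hS
  have h2 : HasSum (fun c : Nat.Primes × ℕ => ((Tc G N c * ((c.2 + 1 : ℕ) : ℝ)⁻¹ : ℝ) : ℂ) *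
      ((Qc c : ℕ) : ℂ) ^ (-s)) S := by
    refine h1.sigma fun c => ?_
    have h3 := hasSum_fintype (fun x : {x : {y : Pt R // N ∉ y.asIdeal} × ℕ // pi N x = c} =>
      ((tm G N s) ∘ (Equiv.sigmaFiberEquiv (pi N))) ⟨c, x⟩)
    have h4 : ∀ x : {x : {y : Pt R // N ∉ y.asIdeal} × ℕ // pi N x = c},
        ((tm G N s) ∘ (Equiv.sigmaFiberEquiv (pi N))) ⟨c, x⟩ =
        (((((pk (fibEq N c x).1).2 + 1 : ℕ) : ℝ) * trY G (fibEq N c x).1 (Qc c) : ℝ) : ℂ) *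
      ((((c.2 + 1 : ℕ) : ℝ)⁻¹ : ℝ) * ((Qc c : ℕ) : ℂ) ^ (-s)) := fun x => tm_fib G s x
    rw [Finset.sum_congr rfl fun x _ => h4 x, ← Finset.sum_mul, ← Complex.ofReal_sum,
      (fibEq N c).sum_comp (fun y => (((pk y.1).2 + 1 : ℕ) : ℝ) * trY G y.1 (Qc c)), ← tc_eq,
      ← mul_assoc, ← Complex.ofReal_mul] at h3
    exact h3
  rw [h2.tsum_eq]
  refine hS.prod_fiberwise fun y => ?_
  exact (hS.summable.prod_factor y).hasSum

/-- the factor of the Euler product -/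
noncomputable def Zy (G : R[X]) (y : Pt R) (T : ℂ) : ℂ :=
  Complex.exp (∑' j : ℕ, ((trY G y (qy y ^ (j + 1)) : ℝ) : ℂ) / ((j + 1 : ℕ) : ℂ) * T ^ (j + 1))

/-- **The Euler product.** -/
theorem hasProd_pts (hG : G.Monic) (hodd : Odd G.natDegree) {e : ℕ} {C : ℝ} (hC0 : 0 ≤ C)
    (hC : ∀ (F : Type) [Field F] [Finite F], (Nat.card (R →+* F) : ℝ) ≤ C * (Nat.card F : ℝ) ^ e)
    {s : ℂ} (hs : (e : ℝ) + 3 / 2 < s.re) :
    HasProd (fun y : {y : Pt R // N ∉ y.asIdeal} => Zy G y.1 ((qy y.1 : ℂ) ^ (-s)))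
      (Complex.exp (∑' c : Nat.Primes × ℕ, ((Tc G N c * ((c.2 + 1 : ℕ) : ℝ)⁻¹ : ℝ) : ℂ) *
        ((Qc c : ℕ) : ℂ) ^ (-s))) := by
  have h1 := (hasSum_pts (N := N) hG hodd hC0 hC hs).cexp
  have h2 : (fun y : {y : Pt R // N ∉ y.asIdeal} => Zy G y.1 ((qy y.1 : ℂ) ^ (-s))) =
      Complex.exp ∘ fun y : {y : Pt R // N ∉ y.asIdeal} => ∑' j : ℕ, tm G N s (y, j) := by
    funext y
    unfold Zy
    show _ = Complex.exp (∑' j : ℕ, tm G N s (y, j))
    congr 1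
    refine tsum_congr fun j => ?_
    unfold tm
    show _ = ((trY G y.1 (qy y.1 ^ (j + 1)) / ((j + 1 : ℕ) : ℝ) : ℝ) : ℂ) *
      ((qy y.1 ^ (j + 1) : ℕ) : ℂ) ^ (-s)
    rw [Nat.cast_pow, Complex.ofReal_div, Complex.ofReal_natCast]
    congr 1
    rw [← Complex.natCast_cpow_natCast_mul, mul_comm, Complex.cpow_mul_nat]
  rw [h2]
  exact h1

end

end Pool.Agent.R410.EP
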